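import Pool.Agent.KS6_82.RP.Fam

/-!
# A twisted family of matrices in characteristic two
-/

set_option autoImplicit false

namespace Pool.Agent.KS6_82.RP

noncomputable section

universe u

section two

variable {S : Type*} [CommRing S] {𝒜 : Type*} [Ring 𝒜] [Algebra S 𝒜]

/-- the one-parameter family attached to two commuting matrices of square zero -/
def ww (a b : 𝒜) (x : S) : 𝒜 := (1 + x • a) * (1 + x ^ 2 • b)

lemma ww_zero (a b : 𝒜) : ww a b (0 : S) = 1 := by simp [ww]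

lemma one_add_mul (c : 𝒜) (hc : c * c = 0) (x y : S) :
    (1 + x • c) * (1 + y • c) = 1 + (x + y) • c := by
  rw [mul_add, add_mul, add_mul, mul_one, one_mul, mul_one, smul_mul_smul_comm, hc, smul_zero,
    add_zero, add_smul, add_assoc]

lemma ww_add (h2 : (2 : S) = 0) (a b : 𝒜) (ha : a * a = 0) (hb : b * b = 0)
    (hab : a * b = b * a) (x y : S) : ww a b x * ww a b y = ww a b (x + y) := by
  have h3 : (1 + x ^ 2 • b) * (1 + y • a) = (1 + y • a) * (1 + x ^ 2 • b) := by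
    simp only [mul_add, add_mul, mul_one, one_mul, smul_mul_smul_comm, hab, mul_comm y]
    abel
  have h4 : (x + y) ^ 2 = x ^ 2 + y ^ 2 := by linear_combination x * y * h2
  calc ww a b x * ww a b y
      = (1 + x • a) * ((1 + x ^ 2 • b) * (1 + y • a)) * (1 + y ^ 2 • b) := by
        rw [ww, ww]; noncomm_ring
    _ = ((1 + x • a) * (1 + y • a)) * ((1 + x ^ 2 • b) * (1 + y ^ 2 • b)) := by
        rw [h3]; noncomm_ring
    _ = ww a b (x + y) := by
        rw [one_add_mul a ha, one_add_mul b hb, ww, h4]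

lemma ww_comm (e : S) (he : e * e = 0) (a0 a1 b0 b1 : 𝒜)
    (h00 : a0 * b0 = b0 * a0 + e • 1) (h01 : a0 * b1 = b1 * a0 + e • b0)
    (h10 : a1 * b0 = b0 * a1 + e • a0) (h11 : a1 * b1 = b1 * a1 + e • (b0 * a0))
    (ha0 : a0 * a0 = 0) (hb0 : b0 * b0 = 0) (ha1 : e • a1 = 0) (hbb : e • (b0 * b1) = 0)
    (x y : S) :
    ww a0 a1 x * ww b0 b1 y = (1 + e * (x * y)) • (ww b0 b1 y * ww a0 a1 x) := by
  have hbb' : ∀ r : S, (e * r) • (b0 * b1) = 0 := fun r => by rw [mul_comm, mul_smul, hbb, smul_zero]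
  have hee : ∀ r : S, ∀ c : 𝒜, (e * (e * r)) • c = 0 := fun r c => by
    rw [← mul_assoc, he, zero_mul, zero_smul]
  have c0 : a0 * ww b0 b1 y = ww b0 b1 y * a0 + (e * y) • ww b0 b1 y := by
    have t1 : a0 * (1 + y • b0) = (1 + y • b0) * a0 + (e * y) • 1 := by
      rw [mul_add, mul_one, mul_smul_comm, h00, smul_add, smul_smul, add_mul, one_mul,
        smul_mul_assoc, mul_comm y e, add_assoc]
    have t2 : a0 * (1 + y ^ 2 • b1) = (1 + y ^ 2 • b1) * a0 + (e * y ^ 2) • b0 := by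
      rw [mul_add, mul_one, mul_smul_comm, h01, smul_add, smul_smul, add_mul, one_mul,
        smul_mul_assoc, mul_comm (y ^ 2) e, add_assoc]
    calc a0 * ww b0 b1 y = (a0 * (1 + y • b0)) * (1 + y ^ 2 • b1) := by rw [ww, mul_assoc]
      _ = (1 + y • b0) * (a0 * (1 + y ^ 2 • b1)) + (e * y) • (1 + y ^ 2 • b1) := by
        rw [t1, add_mul, smul_mul_assoc, one_mul, mul_assoc]
      _ = ww b0 b1 y * a0 + ((1 + y • b0) * ((e * y ^ 2) • b0) +
            (e * y) • (1 + y ^ 2 • b1)) := by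
        rw [t2, mul_add, ww, mul_assoc, add_assoc]
      _ = ww b0 b1 y * a0 + (e * y) • ww b0 b1 y := by
        congr 1
        have l1 : (1 + y • b0) * ((e * y ^ 2) • b0) = (e * y ^ 2) • b0 := by
          rw [add_mul, one_mul, smul_mul_smul_comm, hb0, smul_zero, add_zero]
        have l2 : ww b0 b1 y = (1 + y ^ 2 • b1) + y • b0 + y ^ 3 • (b0 * b1) := by
          rw [ww, add_mul, one_mul, mul_add, mul_one, smul_mul_smul_comm, ← add_assoc]
          congr 2
          ring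
        rw [l1, l2]
        simp only [smul_add, smul_smul]
        rw [mul_assoc e y (y ^ 3), hbb', add_zero, mul_assoc e y y, ← pow_two]
        abel
  have c1 : a1 * ww b0 b1 y = ww b0 b1 y * a1 + (e * y) • (ww b0 b1 y * a0) := by
    have t1 : a1 * (1 + y • b0) = (1 + y • b0) * a1 + (e * y) • a0 := by
      rw [mul_add, mul_one, mul_smul_comm, h10, smul_add, smul_smul, add_mul, one_mul,
        smul_mul_assoc, mul_comm y e, add_assoc]
    have t2 : a1 * (1 + y ^ 2 • b1) = (1 + y ^ 2 • b1) * a1 + (e * y ^ 2) • (b0 * a0) := by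
      rw [mul_add, mul_one, mul_smul_comm, h11, smul_add, smul_smul, add_mul, one_mul,
        smul_mul_assoc, mul_comm (y ^ 2) e, add_assoc]
    have t3 : (e * y) • (a0 * (1 + y ^ 2 • b1)) = (e * y) • ((1 + y ^ 2 • b1) * a0) := by
      rw [mul_add, mul_one, mul_smul_comm, h01, smul_add (y ^ 2), smul_smul (y ^ 2) e, smul_add,
        smul_add, smul_smul (e * y) (y ^ 2 * e),
        show e * y * (y ^ 2 * e) = e * (e * (y ^ 3)) by ring, hee, add_zero, add_mul, one_mul,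
        smul_mul_assoc, smul_add]
    calc a1 * ww b0 b1 y = (a1 * (1 + y • b0)) * (1 + y ^ 2 • b1) := by rw [ww, mul_assoc]
      _ = (1 + y • b0) * (a1 * (1 + y ^ 2 • b1)) + (e * y) • (a0 * (1 + y ^ 2 • b1)) := by
        rw [t1, add_mul, smul_mul_assoc, mul_assoc]
      _ = ww b0 b1 y * a1 + ((1 + y • b0) * ((e * y ^ 2) • (b0 * a0)) +
            (e * y) • ((1 + y ^ 2 • b1) * a0)) := by
        rw [t2, t3, mul_add, ww, mul_assoc, add_assoc]
      _ = ww b0 b1 y * a1 + (e * y) • (ww b0 b1 y * a0) := by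
        congr 1
        have l1 : (1 + y • b0) * ((e * y ^ 2) • (b0 * a0)) = (e * y ^ 2) • (b0 * a0) := by
          rw [add_mul, one_mul, smul_mul_smul_comm, ← mul_assoc b0, hb0, zero_mul, smul_zero,
            add_zero]
        have l2 : ww b0 b1 y * a0 = (1 + y ^ 2 • b1) * a0 + y • (b0 * a0) +
            y ^ 3 • (b0 * b1 * a0) := by
          have l2' : ww b0 b1 y = (1 + y ^ 2 • b1) + y • b0 + y ^ 3 • (b0 * b1) := by
            rw [ww, add_mul, one_mul, mul_add, mul_one, smul_mul_smul_comm, ← add_assoc]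
            congr 2
            ring
          rw [l2', add_mul _ _ a0, add_mul _ _ a0, smul_mul_assoc, smul_mul_assoc]
        have l3 : (e * y ^ 4) • (b0 * b1 * a0) = 0 := by
          rw [← smul_mul_assoc, hbb', zero_mul]
        rw [l1, l2]
        simp only [smul_add, smul_smul]
        rw [show e * y * y ^ 3 = e * y ^ 4 by ring, l3, add_zero, mul_assoc e y y, ← pow_two]
        abel
  set B := ww b0 b1 y with hB
  have ha1' : ∀ r : S, (e * r) • a1 = 0 := fun r => by rw [mul_comm, mul_smul, ha1, smul_zero]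
  have s1 : (1 + x ^ 2 • a1) * B = B * (1 + x ^ 2 • a1 + (e * (x ^ 2 * y)) • a0) := by
    rw [add_mul, one_mul, smul_mul_assoc, c1, mul_add, mul_add, mul_one, mul_smul_comm,
      mul_smul_comm, smul_add, smul_smul, show x ^ 2 * (e * y) = e * (x ^ 2 * y) by ring,
      add_assoc]
  have s0 : (1 + x • a0) * B = B * (1 + x • a0 + (e * (x * y)) • 1) := by
    rw [add_mul, one_mul, smul_mul_assoc, c0, mul_add, mul_add, mul_one, mul_smul_comm,
      mul_smul_comm, mul_one, smul_add, smul_smul, show x * (e * y) = e * (x * y) by ring,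
      add_assoc]
  calc ww a0 a1 x * B = (1 + x • a0) * ((1 + x ^ 2 • a1) * B) := by rw [ww, mul_assoc]
    _ = ((1 + x • a0) * B) * (1 + x ^ 2 • a1 + (e * (x ^ 2 * y)) • a0) := by rw [s1, mul_assoc]
    _ = B * ((1 + x • a0 + (e * (x * y)) • 1) *
          (1 + x ^ 2 • a1 + (e * (x ^ 2 * y)) • a0)) := by rw [s0, mul_assoc]
    _ = B * ((1 + e * (x * y)) • ww a0 a1 x) := by
      congr 1
      have l1 : ww a0 a1 x = (1 + x • a0) * (1 + x ^ 2 • a1) := rfl
      have l2 : (e * (x * y)) • ww a0 a1 x = (e * (x * y)) • 1 + (e * (x ^ 2 * y)) • a0 := by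
        have m1 : (e * (x * y)) • (1 + x ^ 2 • a1) = (e * (x * y)) • (1 : 𝒜) := by
          rw [smul_add, smul_smul, mul_assoc e, ha1', add_zero]
        rw [ww, ← mul_smul_comm, m1, mul_smul_comm, mul_one, smul_add, smul_smul]
        congr 2
        ring
      have l3 : (1 + x • a0) * ((e * (x ^ 2 * y)) • a0) = (e * (x ^ 2 * y)) • a0 := by
        rw [add_mul, one_mul, smul_mul_smul_comm, ha0, smul_zero, add_zero]
      have l4 : (e * (x * y)) • (1 + x ^ 2 • a1 + (e * (x ^ 2 * y)) • a0) =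
          (e * (x * y)) • (1 : 𝒜) := by
        rw [smul_add, smul_add, smul_smul, smul_smul, mul_assoc e (x * y) (x ^ 2), ha1',
          show e * (x * y) * (e * (x ^ 2 * y)) = e * (e * (x * y * (x ^ 2 * y))) by ring, hee,
          add_zero, add_zero]
      rw [add_mul, smul_mul_assoc, one_mul, l4, mul_add, ← l1, l3, add_smul, one_smul, l2]
      abel
    _ = (1 + e * (x * y)) • (B * ww a0 a1 x) := by rw [mul_smul_comm]

end two

section mats

/-- multiplication by `x` on `F_2[x, y, N] / (x^2, y^2, N^2)` -/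
def mX : Matrix (Fin 8) (Fin 8) (ZMod 2) :=
  !![0, 0, 0, 0, 0, 0, 0, 0;
    1, 0, 0, 0, 0, 0, 0, 0;
    0, 0, 0, 0, 0, 0, 0, 0;
    0, 0, 1, 0, 0, 0, 0, 0;
    0, 0, 0, 0, 0, 0, 0, 0;
    0, 0, 0, 0, 1, 0, 0, 0;
    0, 0, 0, 0, 0, 0, 0, 0;
    0, 0, 0, 0, 0, 0, 1, 0]

/-- multiplication by `y` on `F_2[x, y, N] / (x^2, y^2, N^2)` -/
def mY : Matrix (Fin 8) (Fin 8) (ZMod 2) :=
  !![0, 0, 0, 0, 0, 0, 0, 0;
    0, 0, 0, 0, 0, 0, 0, 0;
    1, 0, 0, 0, 0, 0, 0, 0;
    0, 1, 0, 0, 0, 0, 0, 0;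
    0, 0, 0, 0, 0, 0, 0, 0;
    0, 0, 0, 0, 0, 0, 0, 0;
    0, 0, 0, 0, 1, 0, 0, 0;
    0, 0, 0, 0, 0, 1, 0, 0]

/-- `∂/∂x` on `F_2[x, y, N] / (x^2, y^2, N^2)` -/
def mD : Matrix (Fin 8) (Fin 8) (ZMod 2) :=
  !![0, 1, 0, 0, 0, 0, 0, 0;
    0, 0, 0, 0, 0, 0, 0, 0;
    0, 0, 0, 1, 0, 0, 0, 0;
    0, 0, 0, 0, 0, 0, 0, 0;
    0, 0, 0, 0, 0, 1, 0, 0;
    0, 0, 0, 0, 0, 0, 0, 0;
    0, 0, 0, 0, 0, 0, 0, 1;
    0, 0, 0, 0, 0, 0, 0, 0]

/-- multiplication by `x y N` on `F_2[x, y, N] / (x^2, y^2, N^2)` -/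
def mZ : Matrix (Fin 8) (Fin 8) (ZMod 2) :=
  !![0, 0, 0, 0, 0, 0, 0, 0;
    0, 0, 0, 0, 0, 0, 0, 0;
    0, 0, 0, 0, 0, 0, 0, 0;
    0, 0, 0, 0, 0, 0, 0, 0;
    0, 0, 0, 0, 0, 0, 0, 0;
    0, 0, 0, 0, 0, 0, 0, 0;
    0, 0, 0, 0, 0, 0, 0, 0;
    1, 0, 0, 0, 0, 0, 0, 0]

/-- `x ∂/∂y + ∂/∂N` on `F_2[x, y, N] / (x^2, y^2, N^2)` -/
def mX1 : Matrix (Fin 8) (Fin 8) (ZMod 2) :=
  !![0, 0, 0, 0, 1, 0, 0, 0;
    0, 0, 1, 0, 0, 1, 0, 0;
    0, 0, 0, 0, 0, 0, 1, 0;
    0, 0, 0, 0, 0, 0, 0, 1;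
    0, 0, 0, 0, 0, 0, 0, 0;
    0, 0, 0, 0, 0, 0, 1, 0;
    0, 0, 0, 0, 0, 0, 0, 0;
    0, 0, 0, 0, 0, 0, 0, 0]

/-- `y N ∂/∂y + y ∂/∂x` on `F_2[x, y, N] / (x^2, y^2, N^2)` -/
def mY1 : Matrix (Fin 8) (Fin 8) (ZMod 2) :=
  !![0, 0, 0, 0, 0, 0, 0, 0;
    0, 0, 0, 0, 0, 0, 0, 0;
    0, 1, 0, 0, 0, 0, 0, 0;
    0, 0, 0, 0, 0, 0, 0, 0;
    0, 0, 0, 0, 0, 0, 0, 0;
    0, 0, 0, 0, 0, 0, 0, 0;
    0, 0, 1, 0, 0, 1, 0, 0;
    0, 0, 0, 1, 0, 0, 0, 0]

lemma XX : mX * mX = 0 := by decide +kernel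
lemma XX1 : mX * mX1 = mX1 * mX := by decide +kernel
lemma YY : mY * mY = 0 := by decide +kernel
lemma YD : mY * mD + mD * mY = 0 := by decide +kernel
lemma ZZ : mZ * mZ = 0 := by decide +kernel
lemma ZY1 : mZ * mY1 + mY1 * mZ = 0 := by decide +kernel
lemma YZ : mY * mZ = 0 := by decide +kernel
lemma ZY : mZ * mY = 0 := by decide +kernel
lemma YY1 : mY * mY1 + mD * mZ = mZ * mD + mY1 * mY := by decide +kernel
lemma XD : mX * mD = mD * mX + 1 := by decide +kernel
lemma XZ : mX * mZ = mZ * mX := by decide +kernel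
lemma XY : mX * mY = mY * mX := by decide +kernel
lemma XY1 : mX * mY1 = mY1 * mX + mY := by decide +kernel
lemma X1Y : mX1 * mY = mY * mX1 + mX := by decide +kernel
lemma X1Z : mX1 * mZ = mZ * mX1 + mY * mX := by decide +kernel

end mats

section fam

variable {R : Type u} [CommRing R]

/-- the matrices over `R` -/
def toR (h2 : (2 : R) = 0) : Matrix (Fin 8) (Fin 8) (ZMod 2) →+* Matrix (Fin 8) (Fin 8) R :=
  (ZMod.castHom (m := ringChar R) (ringChar.dvd (by exact_mod_cast h2)) R).mapMatrix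

lemma map_ww {S T : Type u} [CommRing S] [Algebra R S] [CommRing T] [Algebra R T]
    (f : S →ₐ[R] T) {κ : Type} [Fintype κ] [DecidableEq κ] (x : S) (A B : Matrix κ κ R) :
    (ww (A.map (algebraMap R S)) (B.map (algebraMap R S)) x).map f =
      ww (A.map (algebraMap R T)) (B.map (algebraMap R T)) (f x) := by
  have hs : ∀ (s : S) (M : Matrix κ κ S), f.mapMatrix (s • M) = f s • f.mapMatrix M := by
    intro s M
    ext i j
    simp
  have hA : ∀ A : Matrix κ κ R, f.mapMatrix (A.map (algebraMap R S)) = A.map (algebraMap R T) := by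
    intro A
    ext i j
    simp
  change f.mapMatrix _ = _
  simp only [ww, map_mul, map_add, map_one, hs, hA, map_pow]

/-- the family in characteristic two -/
def charTwoFam (e : R) (he : e * e = 0) (h2 : (2 : R) = 0) : TwistFam R e where
  κ := Fin 8
  fin := inferInstance
  dec := inferInstance
  ne := inferInstance
  P S _ _ x y :=
    ww ((toR h2 mY + e • toR h2 mD).map (algebraMap R S))
      ((toR h2 mZ + e • toR h2 mY1).map (algebraMap R S)) y *
    ww ((toR h2 mX).map (algebraMap R S)) ((e • toR h2 mX1).map (algebraMap R S)) x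
  nat := by
    intro S T _ _ _ _ f x y
    change f.mapMatrix _ = _
    rw [map_mul]
    congr 1
    · exact map_ww f y _ _
    · exact map_ww f x _ _
  zero := by
    intro S _ _
    rw [ww_zero, ww_zero, one_mul]
  mul := by
    intro S _ _ x y X Y
    let φ : Matrix (Fin 8) (Fin 8) R →ₐ[R] Matrix (Fin 8) (Fin 8) S :=
      (Algebra.ofId R S).mapMatrix
    have hφ : ∀ M : Matrix (Fin 8) (Fin 8) R, M.map (algebraMap R S) = φ M := fun M => rfl
    simp only [hφ]
    have hs : ∀ (r : R) (M : Matrix (Fin 8) (Fin 8) R), φ (r • M) = algebraMap R S r • φ M := by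
      intro r M
      rw [map_smul, algebraMap_smul]
    have h2S : (2 : S) = 0 := by
      have := congrArg (algebraMap R S) h2
      rwa [map_ofNat, map_zero] at this
    have heS : algebraMap R S e * algebraMap R S e = 0 := by rw [← map_mul, he, map_zero]
    set ψ := toR h2 with hψ
    have hee : ∀ M : Matrix (Fin 8) (Fin 8) R, e • e • M = 0 := fun M => by
      rw [smul_smul, he, zero_smul]
    -- relations over `R`
    have rXX : ψ mX * ψ mX = 0 := by rw [← map_mul, XX, map_zero]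
    have rXX1 : ψ mX * ψ mX1 = ψ mX1 * ψ mX := by rw [← map_mul, XX1, map_mul]
    have rYY : ψ mY * ψ mY = 0 := by rw [← map_mul, YY, map_zero]
    have rYD : ψ mY * ψ mD + ψ mD * ψ mY = 0 := by
      rw [← map_mul, ← map_mul, ← map_add, YD, map_zero]
    have rZZ : ψ mZ * ψ mZ = 0 := by rw [← map_mul, ZZ, map_zero]
    have rZY1 : ψ mZ * ψ mY1 + ψ mY1 * ψ mZ = 0 := by
      rw [← map_mul, ← map_mul, ← map_add, ZY1, map_zero]
    have rYZ : ψ mY * ψ mZ = 0 := by rw [← map_mul, YZ, map_zero]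
    have rZY : ψ mZ * ψ mY = 0 := by rw [← map_mul, ZY, map_zero]
    have rYY1 : ψ mY * ψ mY1 + ψ mD * ψ mZ = ψ mZ * ψ mD + ψ mY1 * ψ mY := by
      rw [← map_mul, ← map_mul, ← map_mul, ← map_mul, ← map_add, ← map_add, YY1]
    have rXD : ψ mX * ψ mD = ψ mD * ψ mX + 1 := by
      rw [← map_mul, XD, map_add, map_mul, map_one]
    have rXZ : ψ mX * ψ mZ = ψ mZ * ψ mX := by rw [← map_mul, XZ, map_mul]
    have rXY : ψ mX * ψ mY = ψ mY * ψ mX := by rw [← map_mul, XY, map_mul]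
    have rXY1 : ψ mX * ψ mY1 = ψ mY1 * ψ mX + ψ mY := by rw [← map_mul, XY1, map_add, map_mul]
    have rX1Y : ψ mX1 * ψ mY = ψ mY * ψ mX1 + ψ mX := by rw [← map_mul, X1Y, map_add, map_mul]
    have rX1Z : ψ mX1 * ψ mZ = ψ mZ * ψ mX1 + ψ mY * ψ mX := by
      rw [← map_mul, X1Z, map_add, map_mul, map_mul]
    set a0 := ψ mX with ha0
    set a1 := e • ψ mX1 with ha1
    set b0 := ψ mY + e • ψ mD with hb0
    set b1 := ψ mZ + e • ψ mY1 with hb1
    have q1 : a0 * a0 = 0 := rXX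
    have q2 : a1 * a1 = 0 := by
      rw [ha1, smul_mul_smul_comm, he, zero_smul]
    have q3 : b0 * b0 = 0 := by
      rw [hb0, add_mul, mul_add, mul_add, rYY, smul_mul_smul_comm, he, zero_smul, mul_smul_comm,
        smul_mul_assoc, add_zero, zero_add, ← smul_add, rYD, smul_zero]
    have q4 : b1 * b1 = 0 := by
      rw [hb1, add_mul, mul_add, mul_add, rZZ, smul_mul_smul_comm, he, zero_smul, mul_smul_comm,
        smul_mul_assoc, add_zero, zero_add, ← smul_add, rZY1, smul_zero]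
    have q5 : a0 * a1 = a1 * a0 := by
      rw [ha1, mul_smul_comm, smul_mul_assoc, rXX1]
    have q6 : b0 * b1 = b1 * b0 := by
      rw [hb0, hb1, add_mul, mul_add, mul_add, add_mul, mul_add, mul_add, rYZ, rZY,
        smul_mul_smul_comm, smul_mul_smul_comm, he, zero_smul, zero_smul, mul_smul_comm,
        smul_mul_assoc, mul_smul_comm, smul_mul_assoc, zero_add, zero_add, add_zero, add_zero,
        ← smul_add, ← smul_add, rYY1]
    have q7 : a0 * b0 = b0 * a0 + e • 1 := by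
      rw [hb0, mul_add, mul_smul_comm, rXY, rXD, smul_add, add_mul, smul_mul_assoc, add_assoc]
    have q8 : a0 * b1 = b1 * a0 + e • b0 := by
      rw [hb0, hb1, mul_add, mul_smul_comm, rXZ, rXY1, smul_add, smul_add, hee, add_zero, add_mul,
        smul_mul_assoc, add_assoc]
    have q9 : a1 * b0 = b0 * a1 + e • a0 := by
      rw [hb0, ha1, mul_add, smul_mul_smul_comm, he, zero_smul, add_zero, add_mul,
        smul_mul_smul_comm, he, zero_smul, add_zero, smul_mul_assoc, mul_smul_comm, rX1Y,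
        smul_add]
    have q10 : a1 * b1 = b1 * a1 + e • (b0 * a0) := by
      rw [hb1, hb0, ha1, mul_add, smul_mul_smul_comm, he, zero_smul, add_zero, add_mul,
        smul_mul_smul_comm, he, zero_smul, add_zero, smul_mul_assoc, mul_smul_comm, rX1Z,
        smul_add, add_mul, smul_add, smul_mul_assoc e (ψ mD), hee, add_zero]
    have q11 : e • a1 = 0 := by rw [ha1, hee]
    have q12 : e • (b0 * b1) = 0 := by
      rw [hb0, hb1, add_mul, mul_add, rYZ, zero_add, mul_smul_comm, smul_mul_assoc, smul_add, hee,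
        hee, add_zero]
    -- relations over `S`
    have p1 : φ a0 * φ a0 = 0 := by rw [← map_mul, q1, map_zero]
    have p2 : φ a1 * φ a1 = 0 := by rw [← map_mul, q2, map_zero]
    have p3 : φ b0 * φ b0 = 0 := by rw [← map_mul, q3, map_zero]
    have p4 : φ b1 * φ b1 = 0 := by rw [← map_mul, q4, map_zero]
    have p5 : φ a0 * φ a1 = φ a1 * φ a0 := by rw [← map_mul, q5, map_mul]
    have p6 : φ b0 * φ b1 = φ b1 * φ b0 := by rw [← map_mul, q6, map_mul]
    have p7 : φ a0 * φ b0 = φ b0 * φ a0 + algebraMap R S e • 1 := by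
      rw [← map_mul, q7, map_add, map_mul, hs, map_one]
    have p8 : φ a0 * φ b1 = φ b1 * φ a0 + algebraMap R S e • φ b0 := by
      rw [← map_mul, q8, map_add, map_mul, hs]
    have p9 : φ a1 * φ b0 = φ b0 * φ a1 + algebraMap R S e • φ a0 := by
      rw [← map_mul, q9, map_add, map_mul, hs e a0]
    have p10 : φ a1 * φ b1 = φ b1 * φ a1 + algebraMap R S e • (φ b0 * φ a0) := by
      rw [← map_mul, q10, map_add, map_mul, hs e (b0 * a0), map_mul]
    have p11 : algebraMap R S e • φ a1 = 0 := by rw [← hs, q11, map_zero]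
    have p12 : algebraMap R S e • (φ b0 * φ b1) = 0 := by rw [← map_mul, ← hs, q12, map_zero]
    have comm := ww_comm (algebraMap R S e) heS (φ a0) (φ a1) (φ b0) (φ b1) p7 p8 p9 p10 p1 p3
      p11 p12 x Y
    have add1 := ww_add h2S (φ a0) (φ a1) p1 p2 p5 x X
    have add2 := ww_add h2S (φ b0) (φ b1) p3 p4 p6 y Y
    calc ww (φ b0) (φ b1) y * ww (φ a0) (φ a1) x * (ww (φ b0) (φ b1) Y * ww (φ a0) (φ a1) X)
        = ww (φ b0) (φ b1) y * (ww (φ a0) (φ a1) x * ww (φ b0) (φ b1) Y) *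
            ww (φ a0) (φ a1) X := by noncomm_ring
      _ = (1 + algebraMap R S e * (x * Y)) • ((ww (φ b0) (φ b1) y * ww (φ b0) (φ b1) Y) *
            (ww (φ a0) (φ a1) x * ww (φ a0) (φ a1) X)) := by
        rw [comm, mul_smul_comm, smul_mul_assoc]
        congr 1
        noncomm_ring
      _ = _ := by
        rw [add1, add2, Algebra.smul_def e (x * Y)]

end fam

end

end Pool.Agent.KS6_82.RP
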