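import Pool.Graph.R_seed8.W457.T1

/-!
# Comodules given by matrices and comodule maps from them

`A` is a commutative bialgebra over `R`. A matrix `G` over `A` with `Δ G = G ⊗ G`, `ε G = 1` gives a
comodule structure on the free module. The main lemma produces such matrices which map onto a given
element of a comodule.
-/

set_option autoImplicit false

open scoped TensorProduct
open Pool.Agent.W457

namespace Pool.Agent.KS6_82.RP

noncomputable section

universe u

variable {R : Type u} [CommRing R] {A : Type u} [CommRing A] [Bialgebra R A]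

/-- `Δ G = G ⊗ G` and `ε G = 1` -/
structure GrpLike {J : Type} [Fintype J] [DecidableEq J] (G : Matrix J J A) : Prop where
  comul : ∀ i j, Coalgebra.comul (R := R) (G i j) = ∑ k, G i k ⊗ₜ[R] G k j
  counit : ∀ i j, Coalgebra.counit (R := R) (G i j) = if i = j then 1 else 0

/-- the comodule structure on the free module given by a matrix -/
def ofMatrix {J : Type} [Fintype J] [DecidableEq J] (G : Matrix J J A) (hG : GrpLike (R := R) G) :
    Coaction R A (J → R) where
  map := (Pi.basisFun R J).constr R (fun j => ∑ i, (Pi.basisFun R J i) ⊗ₜ[R] G i j)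
  coassoc := by
    apply (Pi.basisFun R J).ext
    intro j
    simp only [LinearMap.coe_comp, Function.comp_apply, Module.Basis.constr_basis, map_sum,
      LinearMap.rTensor_tmul, LinearMap.lTensor_tmul, LinearEquiv.coe_coe, hG.comul,
      TensorProduct.sum_tmul, TensorProduct.tmul_sum, TensorProduct.assoc_tmul]
    rw [Finset.sum_comm]
  counit := by
    apply (Pi.basisFun R J).ext
    intro j
    simp only [LinearMap.coe_comp, Function.comp_apply, Module.Basis.constr_basis, map_sum,
      LinearMap.lTensor_tmul, LinearEquiv.coe_coe, hG.counit, TensorProduct.rid_tmul,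
      LinearMap.id_coe, id_eq, ite_smul, one_smul, zero_smul]
    simp

variable {M : Type u} [AddCommGroup M] [Module R M]

/-- the submodule `N` of the comodule `M` is covered by a comodule given by a matrix -/
def Cov (ρ : Coaction R A M) (N : Submodule R M) : Prop :=
  ∃ (J : Type) (_ : Fintype J) (_ : DecidableEq J) (G : Matrix J J A) (_ : GrpLike (R := R) G)
    (μ : J → M), (∀ j, ρ.map (μ j) = ∑ i, μ i ⊗ₜ[R] G i j) ∧ N ≤ Submodule.span R (Set.range μ)

lemma Cov.mono {ρ : Coaction R A M} {N N' : Submodule R M} (h : Cov ρ N) (hN : N' ≤ N) :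
    Cov ρ N' := by
  obtain ⟨J, i1, i2, G, hG, μ, h1, h2⟩ := h
  exact ⟨J, i1, i2, G, hG, μ, h1, hN.trans h2⟩

lemma Cov.sup {ρ : Coaction R A M} {N N' : Submodule R M} (h : Cov ρ N) (h' : Cov ρ N') :
    Cov ρ (N ⊔ N') := by
  obtain ⟨J, i1, i2, G, hG, μ, h1, h2⟩ := h
  obtain ⟨J', i1', i2', G', hG', μ', h1', h2'⟩ := h'
  refine ⟨J ⊕ J', inferInstance, inferInstance, Matrix.fromBlocks G 0 0 G', ⟨?_, ?_⟩,
    Sum.elim μ μ', ?_, ?_⟩
  · rintro (i | i) (j | j)
    · simp [hG.comul]
    · simp
    · simp
    · simp [hG'.comul]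
  · rintro (i | i) (j | j)
    · simp [hG.counit]
    · simp
    · simp
    · simp [hG'.counit]
  · rintro (j | j)
    · simp [h1]
    · simp [h1']
  · rw [sup_le_iff, Set.Sum.elim_range, Submodule.span_union]
    exact ⟨h2.trans le_sup_left, h2'.trans le_sup_right⟩

lemma Cov.bot (ρ : Coaction R A M) : Cov ρ ⊥ := by
  refine ⟨Fin 0, inferInstance, inferInstance, 0, ⟨?_, ?_⟩, Fin.elim0, ?_, bot_le⟩
  · intro i; exact i.elim0
  · intro i; exact i.elim0
  · intro i; exact i.elim0

/-- a covered comodule is a quotient of a free comodule -/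
lemma Cov.quotient {ρ : Coaction R A M} (h : Cov ρ ⊤) :
    ∃ (V : Type u) (_ : AddCommGroup V) (_ : Module R V) (_ : Module.Finite R V)
      (_ : Module.Projective R V) (σ : Coaction R A V) (f : V →ₗ[R] M),
      Function.Surjective f ∧ ρ.map ∘ₗ f = f.rTensor A ∘ₗ σ.map := by
  obtain ⟨J, i1, i2, G, hG, μ, h1, h2⟩ := h
  refine ⟨J → R, inferInstance, inferInstance, inferInstance, inferInstance, ofMatrix G hG,
    (Pi.basisFun R J).constr R μ, ?_, ?_⟩
  · rw [← LinearMap.range_eq_top, eq_top_iff, Module.Basis.constr_range]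
    exact h2
  · apply (Pi.basisFun R J).ext
    intro j
    simp only [LinearMap.coe_comp, Function.comp_apply, Module.Basis.constr_basis, ofMatrix,
      map_sum, LinearMap.rTensor_tmul, h1]

/-- the main lemma -/
lemma cov_of (ρ : Coaction R A M) {ι : Type} [Fintype ι] [DecidableEq ι] (a : ι → A)
    (l : ι → (A →ₗ[R] R)) (hl : ∀ α β, l α (a β) = if α = β then 1 else 0)
    (B : Matrix ι ι A)
    (hB : ∀ β, Coalgebra.comul (R := R) (a β) = ∑ α, B α β ⊗ₜ[R] a α)
    {κ : Type} [Fintype κ] [DecidableEq κ] (g h : Matrix κ κ A) (hgh : g * h = 1) (hhg : h * g = 1)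
    (hg : GrpLike (R := R) g) (k0 : κ) (m : M) (μ : κ → ι → M)
    (hμ : ∀ k, (LinearMap.mulLeft R (h k0 k)).lTensor M (ρ.map m) = ∑ α, μ k α ⊗ₜ[R] a α) :
    Cov ρ (Submodule.span R {m}) := by
  classical
  -- the comultiplication of `B`
  have hBΔ : ∀ α β, Coalgebra.comul (R := R) (B α β) = ∑ γ, B γ β ⊗ₜ[R] B α γ := by
    intro α β
    have h1 := LinearMap.congr_fun (Coalgebra.coassoc (R := R) (A := A)) (a β)
    simp only [LinearMap.coe_comp, Function.comp_apply, LinearEquiv.coe_coe, hB, map_sum,
      LinearMap.rTensor_tmul, LinearMap.lTensor_tmul, TensorProduct.tmul_sum] at h1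
    have h2 := congrArg ((TensorProduct.rid R (A ⊗[R] A)).toLinearMap ∘ₗ (l α).lTensor (A ⊗[R] A) ∘ₗ
      (TensorProduct.assoc R A A A).symm.toLinearMap) h1
    simp only [LinearMap.coe_comp, Function.comp_apply, LinearEquiv.coe_coe, map_sum,
      LinearEquiv.symm_apply_apply, LinearMap.lTensor_tmul, TensorProduct.assoc_symm_tmul,
      TensorProduct.rid_tmul, hl, ite_smul, one_smul, zero_smul, Finset.sum_ite_eq,
      Finset.mem_univ, if_true] at h2
    rw [h2]
  have hBε : ∀ α β, Coalgebra.counit (R := R) (B α β) = if α = β then 1 else 0 := by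
    intro α β
    have h1 := Coalgebra.rTensor_counit_comul (R := R) (a β)
    rw [hB] at h1
    simp only [map_sum, LinearMap.rTensor_tmul] at h1
    have h2 := congrArg (fun z => l α (TensorProduct.lid R A z)) h1
    simp only [map_sum, TensorProduct.lid_tmul, map_smul, hl, smul_eq_mul, mul_ite,
      mul_one, mul_zero, Finset.sum_ite_eq, Finset.mem_univ, if_true, one_smul] at h2
    exact h2
  -- the comultiplication of `h`
  have hhΔ : ∀ k, ∑ k', Coalgebra.comul (R := R) (h k0 k') * (g k' k ⊗ₜ[R] (1 : A)) =
      (1 : A) ⊗ₜ[R] h k0 k := by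
    let D : A →+* A ⊗[R] A := (Bialgebra.comulAlgHom R A).toRingHom
    let i1 : A →+* A ⊗[R] A :=
      (Algebra.TensorProduct.includeLeft : A →ₐ[R] A ⊗[R] A).toRingHom
    let i2 : A →+* A ⊗[R] A :=
      (Algebra.TensorProduct.includeRight : A →ₐ[R] A ⊗[R] A).toRingHom
    have e1 : D.mapMatrix g = i1.mapMatrix g * i2.mapMatrix g := by
      ext i j
      rw [Matrix.mul_apply]
      simp only [RingHom.mapMatrix_apply, Matrix.map_apply]
      have := hg.comul i j
      change Coalgebra.comul (R := R) (g i j) = _
      rw [this]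
      refine Finset.sum_congr rfl fun k _ => ?_
      change _ = (g i k ⊗ₜ[R] (1 : A)) * ((1 : A) ⊗ₜ[R] g k j)
      rw [Algebra.TensorProduct.tmul_mul_tmul, mul_one, one_mul]
    have e2 : D.mapMatrix h * i1.mapMatrix g = i2.mapMatrix h := by
      have h3 : i2.mapMatrix g * i2.mapMatrix h = 1 := by rw [← map_mul, hgh, map_one]
      have h4 : D.mapMatrix h * D.mapMatrix g = 1 := by rw [← map_mul, hhg, map_one]
      calc D.mapMatrix h * i1.mapMatrix g
          = D.mapMatrix h * (i1.mapMatrix g * i2.mapMatrix g) * i2.mapMatrix h := by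
            rw [mul_assoc, mul_assoc, h3, mul_one]
        _ = i2.mapMatrix h := by rw [← e1, h4, one_mul]
    intro k
    have e3 := congrFun (congrFun e2 k0) k
    rw [Matrix.mul_apply] at e3
    exact e3
  let G : Matrix (κ × ι) (κ × ι) A := fun p q => g p.1 q.1 * B q.2 p.2
  have hG : GrpLike (R := R) G := by
    constructor
    · rintro ⟨k', β⟩ ⟨k, α⟩
      have : Coalgebra.comul (R := R) (g k' k * B α β) =
          Coalgebra.comul (R := R) (g k' k) * Coalgebra.comul (R := R) (B α β) :=
        map_mul (Bialgebra.comulAlgHom R A) _ _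
      simp only [G]
      rw [this, hg.comul, hBΔ, Finset.sum_mul_sum, Fintype.sum_prod_type]
      refine Finset.sum_congr rfl fun k'' _ => Finset.sum_congr rfl fun γ _ => ?_
      rw [Algebra.TensorProduct.tmul_mul_tmul]
    · rintro ⟨k', β⟩ ⟨k, α⟩
      have : Coalgebra.counit (R := R) (g k' k * B α β) =
          Coalgebra.counit (R := R) (g k' k) * Coalgebra.counit (R := R) (B α β) :=
        map_mul (Bialgebra.counitAlgHom R A) _ _
      simp only [G]
      rw [this, hg.counit, hBε]
      rcases eq_or_ne k' k with h1 | h1 <;> rcases eq_or_ne α β with h2 | h2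
      · simp [h1, h2]
      · simp [h1, h2, h2.symm]
      · simp [h1, h2]
      · simp [h1, h2]
  refine ⟨κ × ι, inferInstance, inferInstance, G, hG, fun p => μ p.1 p.2, ?_, ?_⟩
  · rintro ⟨k, α⟩
    -- apply `ρ ⊗ 1` to `N k`
    have key : (TensorProduct.assoc R M A A) (ρ.map.rTensor A (∑ α, μ k α ⊗ₜ[R] a α)) =
        ∑ k', (LinearMap.mulLeft R (g k' k ⊗ₜ[R] (1 : A))).lTensor M
          ((Coalgebra.comul (R := R) (A := A)).lTensor M (∑ α, μ k' α ⊗ₜ[R] a α)) := by
      simp only [← hμ]
      have c1 : ∀ (b : A) (z : M ⊗[R] A), (TensorProduct.assoc R M A A) (ρ.map.rTensor A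
          ((LinearMap.mulLeft R b).lTensor M z)) =
          (LinearMap.mulLeft R ((1 : A) ⊗ₜ[R] b)).lTensor M
            ((TensorProduct.assoc R M A A) (ρ.map.rTensor A z)) := by
        intro b z
        induction z using TensorProduct.induction_on with
        | zero => simp
        | add x y hx hy => simp only [map_add, hx, hy]
        | tmul v c =>
          simp only [LinearMap.lTensor_tmul, LinearMap.rTensor_tmul, LinearMap.mulLeft_apply]
          generalize ρ.map v = w
          induction w using TensorProduct.induction_on with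
          | zero => simp
          | add x y hx hy => simp only [map_add, TensorProduct.add_tmul, hx, hy]
          | tmul v' c' =>
            simp only [TensorProduct.assoc_tmul, LinearMap.lTensor_tmul,
              LinearMap.mulLeft_apply, Algebra.TensorProduct.tmul_mul_tmul, one_mul]
      have c2 : ∀ (b : A) (z : M ⊗[R] A), (Coalgebra.comul (R := R) (A := A)).lTensor M
          ((LinearMap.mulLeft R b).lTensor M z) =
          (LinearMap.mulLeft R (Coalgebra.comul (R := R) b)).lTensor M
            ((Coalgebra.comul (R := R) (A := A)).lTensor M z) := by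
        intro b z
        induction z using TensorProduct.induction_on with
        | zero => simp
        | add x y hx hy => simp only [map_add, hx, hy]
        | tmul v c =>
          simp only [LinearMap.lTensor_tmul, LinearMap.mulLeft_apply]
          congr 1
          exact map_mul (Bialgebra.comulAlgHom R A) _ _
      have hco := LinearMap.congr_fun ρ.coassoc m
      simp only [LinearMap.coe_comp, Function.comp_apply, LinearEquiv.coe_coe] at hco
      rw [c1, hco]
      simp only [c2]
      generalize (Coalgebra.comul (R := R) (A := A)).lTensor M (ρ.map m) = z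
      rw [← hhΔ k]
      induction z using TensorProduct.induction_on with
      | zero => simp
      | add x y hx hy => simp only [map_add, Finset.sum_add_distrib, hx, hy]
      | tmul v c =>
        simp only [LinearMap.lTensor_tmul, LinearMap.mulLeft_apply, Finset.sum_mul,
          TensorProduct.tmul_sum]
        refine Finset.sum_congr rfl fun k' _ => ?_
        rw [← mul_assoc, mul_comm (g k' k ⊗ₜ[R] (1 : A))]
    have h2 := congrArg ((TensorProduct.rid R (M ⊗[R] A)).toLinearMap ∘ₗ (l α).lTensor (M ⊗[R] A) ∘ₗ
      (TensorProduct.assoc R M A A).symm.toLinearMap) key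
    simp only [LinearMap.coe_comp, Function.comp_apply, LinearEquiv.coe_coe, map_sum,
      LinearEquiv.symm_apply_apply, LinearMap.lTensor_tmul, LinearMap.rTensor_tmul,
      TensorProduct.rid_tmul, hl, ite_smul, one_smul, zero_smul, Finset.sum_ite_eq,
      Finset.mem_univ, if_true, hB, TensorProduct.tmul_sum, LinearMap.mulLeft_apply,
      Algebra.TensorProduct.tmul_mul_tmul, one_mul, TensorProduct.assoc_symm_tmul] at h2
    rw [h2, Fintype.sum_prod_type]
  · rw [Submodule.span_le, Set.singleton_subset_iff, SetLike.mem_coe]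
    have hε : Coalgebra.counit (R := R) (h k0 k0) = 1 := by
      let E : A →+* R := (Bialgebra.counitAlgHom R A).toRingHom
      have e1 : E.mapMatrix g = 1 := by
        ext i j
        simp only [RingHom.mapMatrix_apply, Matrix.map_apply, Matrix.one_apply]
        exact hg.counit i j
      have e2 : E.mapMatrix h = 1 := by
        have : E.mapMatrix g * E.mapMatrix h = 1 := by rw [← map_mul, hgh, map_one]
        rwa [e1, one_mul] at this
      have e3 := congrFun (congrFun e2 k0) k0
      change E (h k0 k0) = 1
      simpa using e3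
    have h1 := hμ k0
    have h2 := congrArg ((TensorProduct.rid R M).toLinearMap ∘ₗ
      (Coalgebra.counit (R := R) (A := A)).lTensor M) h1
    have h3 : ∀ (b : A) (z : M ⊗[R] A), (TensorProduct.rid R M)
        ((Coalgebra.counit (R := R) (A := A)).lTensor M ((LinearMap.mulLeft R b).lTensor M z)) =
        Coalgebra.counit (R := R) b • (TensorProduct.rid R M)
        ((Coalgebra.counit (R := R) (A := A)).lTensor M z) := by
      intro b z
      induction z using TensorProduct.induction_on with
      | zero => simp
      | add x y hx hy => simp only [map_add, smul_add, hx, hy]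
      | tmul v c =>
        simp only [LinearMap.lTensor_tmul, LinearMap.mulLeft_apply, TensorProduct.rid_tmul]
        have : Coalgebra.counit (R := R) (b * c) =
            Coalgebra.counit (R := R) b * Coalgebra.counit (R := R) c :=
          map_mul (Bialgebra.counitAlgHom R A) _ _
        rw [this, smul_smul]
    have hcu := LinearMap.congr_fun ρ.counit m
    simp only [LinearMap.coe_comp, Function.comp_apply, LinearEquiv.coe_coe, LinearMap.id_coe,
      id_eq] at hcu
    simp only [LinearMap.coe_comp, Function.comp_apply, LinearEquiv.coe_coe] at h2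
    rw [h3, hε, one_smul, hcu] at h2
    rw [h2, map_sum, map_sum]
    refine Submodule.sum_mem _ fun α _ => ?_
    rw [LinearMap.lTensor_tmul, TensorProduct.rid_tmul]
    exact Submodule.smul_mem _ _ (Submodule.subset_span ⟨(k0, α), rfl⟩)

end

end Pool.Agent.KS6_82.RP
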