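import Pool.Agent.KS6_82.RP.Twist

/-!
# Twisted families of matrices
-/

set_option autoImplicit false

namespace Pool.Agent.KS6_82.RP

noncomputable section

universe u

section ring

/-- truncated exponential function -/
def ex {S : Type*} [CommRing S] {𝒜 : Type*} [Ring 𝒜] [Algebra S 𝒜] (h u : S) (Z : 𝒜) : 𝒜 :=
  1 + Z + h • Z ^ 2 + u • Z ^ 3

variable {S : Type*} [CommRing S] {𝒜 : Type*} [Ring 𝒜] [Algebra S 𝒜]

/-- truncated exponential functions: addition formula -/
lemma ex_add (h u : S) (A : 𝒜) (h1 : (2 * h - 1) • A ^ 2 = 0) (h2 : (3 * u - h) • A ^ 3 = 0)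
    (h3 : A ^ 4 = 0) (x y : S) : ex h u (x • A) * ex h u (y • A) = ex h u ((x + y) • A) := by
  let p : S → Polynomial S := fun x => 1 + Polynomial.C x * Polynomial.X +
    Polynomial.C (h * x ^ 2) * Polynomial.X ^ 2 + Polynomial.C (u * x ^ 3) * Polynomial.X ^ 3
  have hp : ∀ x, ex h u (x • A) = Polynomial.aeval A (p x) := by
    intro x
    rw [ex, smul_pow, smul_pow]
    simp only [p, map_add, map_one, map_mul, Polynomial.aeval_C, Polynomial.aeval_X, map_pow,
      Algebra.smul_def]
    simp only [mul_assoc]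
  rw [hp, hp, hp, ← map_mul]
  have h4 : p x * p y = p (x + y) +
      Polynomial.C (-(x * y)) * (Polynomial.C (2 * h - 1) * Polynomial.X ^ 2) +
      Polynomial.C (-(x ^ 2 * y + x * y ^ 2)) * (Polynomial.C (3 * u - h) * Polynomial.X ^ 3) +
      Polynomial.C (u * (x ^ 3 * y + x * y ^ 3) + h ^ 2 * x ^ 2 * y ^ 2) * Polynomial.X ^ 4 +
      Polynomial.C (h * u * (x ^ 3 * y ^ 2 + x ^ 2 * y ^ 3)) * Polynomial.X * Polynomial.X ^ 4 +
      Polynomial.C (u ^ 2 * x ^ 3 * y ^ 3) * Polynomial.X ^ 2 * Polynomial.X ^ 4 := by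
    simp only [p, map_add, map_mul, map_pow, map_sub, map_neg, map_one, map_ofNat]
    ring
  rw [h4]
  have e1 : algebraMap S 𝒜 (2 * h - 1) * A ^ 2 = 0 := by rw [← Algebra.smul_def, h1]
  have e2 : algebraMap S 𝒜 (3 * u - h) * A ^ 3 = 0 := by rw [← Algebra.smul_def, h2]
  simp only [map_add (Polynomial.aeval A), map_mul (Polynomial.aeval A),
    map_pow (Polynomial.aeval A), Polynomial.aeval_C, Polynomial.aeval_X, e1, e2, h3, mul_zero,
    add_zero]

/-- truncated exponential functions: commutation relation -/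
lemma ex_comm (h u : S) (Z W : 𝒜) (c : S) (hZW : Z * W = W * Z + c • 1)
    (hc : c * c = 0) (hh : (2 * h - 1) * c = 0) (hcZ : c • Z ^ 2 = 0) (hcW : c • W ^ 2 = 0) :
    ex h u Z * ex h u W = (1 + c) • (ex h u W * ex h u Z) := by
  have hhc : (2 * h * c) = c := by linear_combination hh
  have z2 : Z ^ 2 * W = W * Z ^ 2 + (2 * c) • Z := by
    calc Z ^ 2 * W = Z * (Z * W) := by rw [pow_two, mul_assoc]
      _ = Z * (W * Z + c • 1) := by rw [hZW]
      _ = (Z * W) * Z + c • Z := by rw [mul_add, mul_smul_comm, mul_one, mul_assoc]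
      _ = W * Z ^ 2 + (2 * c) • Z := by
        rw [hZW, add_mul, smul_mul_assoc, one_mul, mul_assoc, pow_two, two_mul, add_smul,
          add_assoc]
  have z3 : Z ^ 3 * W = W * Z ^ 3 := by
    calc Z ^ 3 * W = Z * (Z ^ 2 * W) := by rw [pow_succ', mul_assoc]
      _ = Z * (W * Z ^ 2 + (2 * c) • Z) := by rw [z2]
      _ = (Z * W) * Z ^ 2 + 2 • (c • Z ^ 2) := by
        rw [mul_add, mul_smul_comm, ← mul_assoc, ← pow_two, two_mul, add_smul, two_smul]
      _ = W * Z ^ 3 := by
        rw [hZW, add_mul, smul_mul_assoc, one_mul, hcZ, smul_zero, add_zero, add_zero, mul_assoc,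
          ← pow_succ']
  have hcE : c • ex h u Z = c • (1 + Z) := by
    have : c • Z ^ 3 = 0 := by rw [pow_succ, ← smul_mul_assoc, hcZ, zero_mul]
    rw [ex, smul_add, smul_add, smul_comm c h, hcZ, smul_comm c u, this, smul_zero, smul_zero,
      add_zero, add_zero]
  have hcEW : c • ex h u W = c • (1 + W) := by
    have : c • W ^ 3 = 0 := by rw [pow_succ, ← smul_mul_assoc, hcW, zero_mul]
    rw [ex, smul_add, smul_add, smul_comm c h, hcW, smul_comm c u, this, smul_zero, smul_zero,
      add_zero, add_zero]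
  have key : ex h u Z * W = W * ex h u Z + c • ex h u Z := by
    rw [hcE]
    simp only [ex, add_mul, mul_add, one_mul, mul_one, smul_mul_assoc, mul_smul_comm, z2, z3, hZW,
      smul_add, smul_smul]
    have : (h * (2 * c)) = c := by linear_combination hhc
    rw [this]
    abel
  have key2 : ex h u Z * W ^ 2 = W ^ 2 * ex h u Z + (2 * c) • (W * ex h u Z) := by
    calc ex h u Z * W ^ 2 = (ex h u Z * W) * W := by rw [pow_two, mul_assoc]
      _ = W * (ex h u Z * W) + c • (ex h u Z * W) := by
        rw [key, add_mul, smul_mul_assoc, mul_assoc]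
        rw [key]
      _ = W ^ 2 * ex h u Z + (2 * c) • (W * ex h u Z) := by
        rw [key, mul_add, mul_smul_comm, smul_add, smul_smul, hc, zero_smul, add_zero, ← mul_assoc,
          ← pow_two, two_mul, add_smul, add_assoc]
  have key3 : ex h u Z * W ^ 3 = W ^ 3 * ex h u Z := by
    calc ex h u Z * W ^ 3 = (ex h u Z * W ^ 2) * W := by rw [pow_succ, mul_assoc]
      _ = W ^ 2 * (ex h u Z * W) + (2 * c) • (W * (ex h u Z * W)) := by
        rw [key2, add_mul, smul_mul_assoc, mul_assoc, mul_assoc]
      _ = W ^ 3 * ex h u Z + (3 : S) • ((c • W ^ 2) * ex h u Z) := by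
        have hcc : 2 * c * c = 0 := by rw [mul_assoc, hc, mul_zero]
        have w3 : W ^ 2 * (W * ex h u Z) = W ^ 3 * ex h u Z := by rw [← mul_assoc, ← pow_succ]
        have w2 : W * (W * ex h u Z) = W ^ 2 * ex h u Z := by rw [← mul_assoc, ← pow_two]
        rw [key, mul_add, mul_add, mul_smul_comm, mul_smul_comm, smul_add, smul_smul (2 * c) c,
          hcc, zero_smul, add_zero, w3, w2, smul_mul_assoc, smul_smul, add_assoc, ← add_smul]
        congr 2
        ring
      _ = W ^ 3 * ex h u Z := by rw [hcW, zero_mul, smul_zero, add_zero]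
  calc ex h u Z * ex h u W = ex h u Z + ex h u Z * W + h • (ex h u Z * W ^ 2) +
        u • (ex h u Z * W ^ 3) := by
        conv_lhs => rw [ex.eq_def h u W]
        rw [mul_add, mul_add, mul_add, mul_one, mul_smul_comm, mul_smul_comm]
    _ = ex h u W * ex h u Z + c • ex h u Z + c • (W * ex h u Z) := by
        rw [key, key2, key3]
        conv_rhs => rw [ex.eq_def h u W]
        rw [add_mul, add_mul, add_mul, one_mul, smul_mul_assoc, smul_mul_assoc, smul_add,
          smul_smul]
        have : (h * (2 * c)) = c := by linear_combination hhc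
        rw [this]
        abel
    _ = (1 + c) • (ex h u W * ex h u Z) := by
        have : c • (ex h u W * ex h u Z) = c • ex h u Z + c • (W * ex h u Z) := by
          rw [← smul_mul_assoc, hcEW, smul_mul_assoc, add_mul, one_mul, smul_add]
        rw [add_smul, one_smul, this, add_assoc]

end ring

section mat

variable {R : Type u} [CommRing R]

lemma map_ex {S T : Type u} [CommRing S] [Algebra R S] [CommRing T] [Algebra R T]
    (f : S →ₐ[R] T) {κ : Type} [Fintype κ] [DecidableEq κ] (h u : R) (x : S) (A : Matrix κ κ R) :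
    (ex (algebraMap R S h) (algebraMap R S u) (x • A.map (algebraMap R S))).map f =
      ex (algebraMap R T h) (algebraMap R T u) (f x • A.map (algebraMap R T)) := by
  have hs : ∀ (s : S) (M : Matrix κ κ S), f.mapMatrix (s • M) = f s • f.mapMatrix M := by
    intro s M
    ext i j
    simp
  have hA : f.mapMatrix (A.map (algebraMap R S)) = A.map (algebraMap R T) := by
    ext i j
    simp
  change f.mapMatrix _ = _
  simp only [ex, map_add, map_one, map_pow, hs, hA, AlgHom.commutes]

/-- twisted families from pairs of matrices -/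
def famOf (e h u : R) {κ : Type} [Fintype κ] [DecidableEq κ] [Nonempty κ] (A B : Matrix κ κ R)
    (he : e * e = 0) (hh : (2 * h - 1) * e = 0)
    (hAB : A * B = B * A + e • 1) (hA2 : e • A ^ 2 = 0) (hB2 : e • B ^ 2 = 0)
    (hA2' : (2 * h - 1) • A ^ 2 = 0) (hB2' : (2 * h - 1) • B ^ 2 = 0)
    (hA3 : (3 * u - h) • A ^ 3 = 0) (hB3 : (3 * u - h) • B ^ 3 = 0)
    (hA4 : A ^ 4 = 0) (hB4 : B ^ 4 = 0) : TwistFam R e where
  κ := κ
  fin := inferInstance
  dec := inferInstance
  ne := inferInstance
  P S _ _ x y := ex (algebraMap R S h) (algebraMap R S u) (y • B.map (algebraMap R S)) *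
    ex (algebraMap R S h) (algebraMap R S u) (x • A.map (algebraMap R S))
  nat := by
    intro S T _ _ _ _ f x y
    change f.mapMatrix _ = _
    rw [map_mul]
    congr 1
    · exact map_ex f h u y B
    · exact map_ex f h u x A
  zero := by
    intro S _ _
    simp [ex]
  mul := by
    intro S _ _ x y X Y
    let φ : Matrix κ κ R →ₐ[R] Matrix κ κ S := (Algebra.ofId R S).mapMatrix
    have hφ : ∀ M : Matrix κ κ R, M.map (algebraMap R S) = φ M := fun M => rfl
    simp only [hφ]
    have hs : ∀ (r : R) (M : Matrix κ κ R), φ (r • M) = algebraMap R S r • φ M := by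
      intro r M
      rw [map_smul, algebraMap_smul]
    set e' := algebraMap R S e with he'
    set h' := algebraMap R S h with hh'
    set u' := algebraMap R S u with hu'
    have e1 : φ A * φ B = φ B * φ A + e' • 1 := by
      rw [← map_mul, hAB, map_add, map_mul, hs, map_one]
    have e2 : e' • φ A ^ 2 = 0 := by rw [← map_pow, ← hs, hA2, map_zero]
    have e3 : e' • φ B ^ 2 = 0 := by rw [← map_pow, ← hs, hB2, map_zero]
    have e4 : (2 * h' - 1) • φ A ^ 2 = 0 := by
      have := hs (2 * h - 1) (A ^ 2)
      rw [hA2', map_zero, map_pow] at this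
      rw [map_sub, map_mul, map_one, map_ofNat] at this
      exact this.symm
    have e5 : (2 * h' - 1) • φ B ^ 2 = 0 := by
      have := hs (2 * h - 1) (B ^ 2)
      rw [hB2', map_zero, map_pow] at this
      rw [map_sub, map_mul, map_one, map_ofNat] at this
      exact this.symm
    have e6 : (3 * u' - h') • φ A ^ 3 = 0 := by
      have := hs (3 * u - h) (A ^ 3)
      rw [hA3, map_zero, map_pow] at this
      rw [map_sub, map_mul, map_ofNat] at this
      exact this.symm
    have e7 : (3 * u' - h') • φ B ^ 3 = 0 := by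
      have := hs (3 * u - h) (B ^ 3)
      rw [hB3, map_zero, map_pow] at this
      rw [map_sub, map_mul, map_ofNat] at this
      exact this.symm
    have e8 : φ A ^ 4 = 0 := by rw [← map_pow, hA4, map_zero]
    have e9 : φ B ^ 4 = 0 := by rw [← map_pow, hB4, map_zero]
    have e10 : e' * e' = 0 := by rw [he', ← map_mul, he, map_zero]
    have e11 : (2 * h' - 1) * e' = 0 := by
      have := congrArg (algebraMap R S) hh
      rw [map_mul, map_sub, map_mul, map_one, map_ofNat, map_zero] at this
      exact this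
    have comm := ex_comm h' u' (x • φ A) (Y • φ B) (e' * (x * Y))
      (by
        rw [smul_mul_smul_comm, e1, smul_add, smul_mul_smul_comm, smul_smul, mul_comm Y x,
          mul_comm e']) (by linear_combination (x * Y) ^ 2 * e10)
      (by linear_combination (x * Y) * e11)
      (by rw [smul_pow, smul_comm, mul_comm e', mul_smul, e2, smul_zero, smul_zero])
      (by rw [smul_pow, smul_comm, mul_comm e', mul_smul, e3, smul_zero, smul_zero])
    have add1 := ex_add h' u' (φ A) e4 e6 e8 x X
    have add2 := ex_add h' u' (φ B) e5 e7 e9 y Y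
    calc ex h' u' (y • φ B) * ex h' u' (x • φ A) * (ex h' u' (Y • φ B) * ex h' u' (X • φ A))
        = ex h' u' (y • φ B) * (ex h' u' (x • φ A) * ex h' u' (Y • φ B)) *
          ex h' u' (X • φ A) := by noncomm_ring
      _ = (1 + e' * (x * Y)) • ((ex h' u' (y • φ B) * ex h' u' (Y • φ B)) *
          (ex h' u' (x • φ A) * ex h' u' (X • φ A))) := by
        rw [comm, mul_smul_comm, smul_mul_assoc]
        congr 1
        noncomm_ring
      _ = _ := by
        rw [add1, add2, he', Algebra.smul_def e (x * Y)]

end mat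

end

end Pool.Agent.KS6_82.RP
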