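import Pool.Agent.KS6_82.RP.Core

/-!
# The groups `G_e`

The group scheme `G_e` over `R`, `e ^ 2 = 0`, is `𝔸¹ × 𝔸¹ × 𝔾ₘ` with the law
`(a, b, u) (a', b', u') = (a + a', b + b', u u' (1 + e a b'))`.
-/

set_option autoImplicit false

open scoped TensorProduct
open Pool.Agent.W457

namespace Pool.Agent.KS6_82.RP

noncomputable section

universe u

/-- The bialgebra `A` is the coordinate ring `R[x, y, t, t⁻¹]` of the group with the law
`(a, b, u) (a', b', u') = (a + a', b + b', u u' (1 + e a b'))`. -/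
structure Heis {R : Type u} [CommRing R] (e : R) (A : Type u) [CommRing A] [Bialgebra R A] where
  /-- the first coordinate -/
  x : A
  /-- the second coordinate -/
  y : A
  /-- the third coordinate -/
  t : Aˣ
  dx : Coalgebra.comul (R := R) x = x ⊗ₜ[R] 1 + 1 ⊗ₜ[R] x
  dy : Coalgebra.comul (R := R) y = y ⊗ₜ[R] 1 + 1 ⊗ₜ[R] y
  dt : Coalgebra.comul (R := R) (t : A) =
    ((t : A) ⊗ₜ[R] (t : A)) * (1 + e • (x ⊗ₜ[R] y))
  /-- the monomials are a basis -/
  b : Module.Basis (ℕ × ℕ × ℤ) R A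
  hb : ∀ i j w, b (i, j, w) = x ^ i * y ^ j * ((t ^ w : Aˣ) : A)

namespace Heis

variable {R : Type u} [CommRing R] {e : R} {A : Type u} [CommRing A] [Bialgebra R A]
  (H : Heis e A)

/-- coordinates with respect to the basis of monomials -/
def c (i j : ℕ) (w : ℤ) : A →ₗ[R] R := H.b.coord (i, j, w)

lemma c_b (i j : ℕ) (w : ℤ) (i' j' : ℕ) (w' : ℤ) :
    H.c i j w (H.b (i', j', w')) = if i' = i ∧ j' = j ∧ w' = w then 1 else 0 := by
  simp [c, Finsupp.single_apply, Prod.mk.injEq]

lemma b_mul_x (i j : ℕ) (w : ℤ) : H.b (i, j, w) * H.x = H.b (i + 1, j, w) := by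
  rw [H.hb, H.hb]; ring

lemma b_mul_y (i j : ℕ) (w : ℤ) : H.b (i, j, w) * H.y = H.b (i, j + 1, w) := by
  rw [H.hb, H.hb]; ring

lemma b_mul_t (i j : ℕ) (w v : ℤ) :
    H.b (i, j, w) * ((H.t ^ v : Aˣ) : A) = H.b (i, j, w + v) := by
  rw [H.hb, H.hb, mul_assoc, ← Units.val_mul, ← zpow_add]

lemma c_mul_x0 (j : ℕ) (w : ℤ) (z : A) : H.c 0 j w (z * H.x) = 0 := by
  have : H.c 0 j w ∘ₗ LinearMap.mulRight R H.x = 0 := by
    apply H.b.ext
    rintro ⟨i', j', w'⟩
    simp [b_mul_x, c_b]
  exact LinearMap.congr_fun this z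

lemma c_mul_y0 (i : ℕ) (w : ℤ) (z : A) : H.c i 0 w (z * H.y) = 0 := by
  have : H.c i 0 w ∘ₗ LinearMap.mulRight R H.y = 0 := by
    apply H.b.ext
    rintro ⟨i', j', w'⟩
    simp [b_mul_y, c_b]
  exact LinearMap.congr_fun this z

lemma c_mul_x (i j : ℕ) (w : ℤ) (z : A) : H.c (i + 1) j w (z * H.x) = H.c i j w z := by
  have : H.c (i + 1) j w ∘ₗ LinearMap.mulRight R H.x = H.c i j w := by
    apply H.b.ext
    rintro ⟨i', j', w'⟩
    simp [b_mul_x, c_b]
  exact LinearMap.congr_fun this z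

lemma c_mul_y (i j : ℕ) (w : ℤ) (z : A) : H.c i (j + 1) w (z * H.y) = H.c i j w z := by
  have : H.c i (j + 1) w ∘ₗ LinearMap.mulRight R H.y = H.c i j w := by
    apply H.b.ext
    rintro ⟨i', j', w'⟩
    simp [b_mul_y, c_b]
  exact LinearMap.congr_fun this z

lemma c_t (i j : ℕ) (w v : ℤ) : H.c i j w ((H.t ^ v : Aˣ) : A) =
    if 0 = i ∧ 0 = j ∧ v = w then 1 else 0 := by
  have := H.c_b i j w 0 0 v
  rw [H.hb] at this
  simpa using this

/-- linear maps are equal if they agree on the powers of `t` and have the same behaviour for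
multiplication by `x` and `y` -/
lemma ext_zero {N : Type u} [AddCommGroup N] [Module R N] (f : A →ₗ[R] N)
    (hx : ∀ z, f (z * H.x) = 0) (hy : ∀ z, f (z * H.y) = 0)
    (ht : ∀ v : ℤ, f ((H.t ^ v : Aˣ) : A) = 0) : f = 0 := by
  apply H.b.ext
  rintro ⟨i, j, w⟩
  rw [LinearMap.zero_apply]
  rcases i with _ | i
  · rcases j with _ | j
    · rw [H.hb]; simpa using ht w
    · rw [← b_mul_y, hy]
  · rw [← b_mul_x, hx]

/-- `(1 ⊗ l) Δ` -/
def D (l : A →ₗ[R] R) : A →ₗ[R] A :=
  (TensorProduct.rid R A).toLinearMap ∘ₗ l.lTensor A ∘ₗ Coalgebra.comul (R := R) (A := A)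

/-- `1 ⊗ l` -/
def E (l : A →ₗ[R] R) : A ⊗[R] A →ₗ[R] A := (TensorProduct.rid R A).toLinearMap ∘ₗ l.lTensor A

lemma D_apply (l : A →ₗ[R] R) (z : A) : D l z = E l (Coalgebra.comul (R := R) z) := rfl

lemma E_tmul (l : A →ₗ[R] R) (a b : A) : E l (a ⊗ₜ[R] b) = l b • a := by simp [E]

lemma E_mul_left (l : A →ₗ[R] R) (z : A ⊗[R] A) (a : A) : E l (z * (a ⊗ₜ[R] 1)) = E l z * a := by
  induction z using TensorProduct.induction_on with
  | zero => simp
  | add u v hu hv => rw [add_mul, map_add, hu, hv, map_add, add_mul]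
  | tmul u v => rw [Algebra.TensorProduct.tmul_mul_tmul, E_tmul, E_tmul, mul_one, smul_mul_assoc]

lemma E_mul_right (l l' : A →ₗ[R] R) (a : A) (h : ∀ b, l (b * a) = l' b) (z : A ⊗[R] A) :
    E l (z * ((1 : A) ⊗ₜ[R] a)) = E l' z := by
  induction z using TensorProduct.induction_on with
  | zero => simp
  | add u v hu hv => rw [add_mul, map_add, hu, hv, map_add]
  | tmul u v => rw [Algebra.TensorProduct.tmul_mul_tmul, E_tmul, E_tmul, mul_one, h]

lemma comul_mul (a b : A) : Coalgebra.comul (R := R) (a * b) =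
    Coalgebra.comul (R := R) a * Coalgebra.comul (R := R) b :=
  map_mul (Bialgebra.comulAlgHom R A) _ _

lemma D_mul_x (l l' : A →ₗ[R] R) (h : ∀ b, l (b * H.x) = l' b) (z : A) :
    D l (z * H.x) = D l z * H.x + D l' z := by
  rw [D_apply, comul_mul, H.dx, mul_add, map_add, E_mul_left, E_mul_right l l' _ h]
  rfl

lemma D_mul_y (l l' : A →ₗ[R] R) (h : ∀ b, l (b * H.y) = l' b) (z : A) :
    D l (z * H.y) = D l z * H.y + D l' z := by
  rw [D_apply, comul_mul, H.dy, mul_add, map_add, E_mul_left, E_mul_right l l' _ h]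
  rfl

lemma D_zero : D (0 : A →ₗ[R] R) = 0 := by
  ext z; simp [D]

/-- the unit `1 + e z` -/
def one_add (he : e * e = 0) {S : Type u} [CommRing S] [Algebra R S] (z : S) : Sˣ where
  val := 1 + e • z
  inv := 1 - e • z
  val_inv := by
    have : (e • z) * (e • z) = 0 := by rw [smul_mul_smul_comm, he, zero_smul]
    linear_combination -this
  inv_val := by
    have : (e • z) * (e • z) = 0 := by rw [smul_mul_smul_comm, he, zero_smul]
    linear_combination -this

lemma one_add_mul (he : e * e = 0) {S : Type u} [CommRing S] [Algebra R S] (z : S) (r : R) :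
    (1 + (r * e) • z) * (1 + e • z) = 1 + ((r + 1) * e) • z := by
  have : (e • z) * (e • z) = 0 := by rw [smul_mul_smul_comm, he, zero_smul]
  have h2 : (r * e) • z = r • (e • z) := mul_smul _ _ _
  have h3 : ((r + 1) * e) • z = r • (e • z) + e • z := by rw [mul_smul, add_smul, one_smul]
  rw [h2, h3, Algebra.smul_def r]
  linear_combination (algebraMap R S r) * this

lemma one_add_zpow (he : e * e = 0) {S : Type u} [CommRing S] [Algebra R S] (z : S) (w : ℤ) :
    ((one_add he z ^ w : Sˣ) : S) = 1 + ((w : R) * e) • z := by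
  induction w using Int.induction_on with
  | zero => simp
  | succ n ih =>
    rw [zpow_add_one, Units.val_mul, ih]
    push_cast
    exact one_add_mul he z _
  | pred n ih =>
    rw [zpow_sub_one, Units.val_mul, ih, Units.mul_inv_eq_iff_eq_mul]
    have := one_add_mul he z (((-n : ℤ) : R) - 1)
    rw [sub_add_cancel] at this
    push_cast at this ⊢
    exact this.symm

lemma comul_t_zpow (he : e * e = 0) (w : ℤ) :
    Coalgebra.comul (R := R) ((H.t ^ w : Aˣ) : A) =
      (((H.t ^ w : Aˣ) : A) ⊗ₜ[R] ((H.t ^ w : Aˣ) : A)) *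
        (1 + ((w : R) * e) • (H.x ⊗ₜ[R] H.y)) := by
  let i1 : A →* A ⊗[R] A :=
    ((Algebra.TensorProduct.includeLeft : A →ₐ[R] A ⊗[R] A) : A →* A ⊗[R] A)
  let i2 : A →* A ⊗[R] A :=
    ((Algebra.TensorProduct.includeRight : A →ₐ[R] A ⊗[R] A) : A →* A ⊗[R] A)
  let Dm : A →* A ⊗[R] A := ((Bialgebra.comulAlgHom R A : A →ₐ[R] A ⊗[R] A) : A →* A ⊗[R] A)
  have h1 : Units.map Dm H.t = Units.map i1 H.t * Units.map i2 H.t *
      one_add he (H.x ⊗ₜ[R] H.y) := by
    apply Units.ext
    rw [Units.val_mul, Units.val_mul]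
    change Coalgebra.comul (R := R) (H.t : A) = ((H.t : A) ⊗ₜ[R] 1) * (1 ⊗ₜ[R] (H.t : A)) * _
    rw [H.dt, Algebra.TensorProduct.tmul_mul_tmul, mul_one, one_mul]
    rfl
  have h2 : Units.map Dm (H.t ^ w) = Units.map i1 (H.t ^ w) * Units.map i2 (H.t ^ w) *
      one_add he (H.x ⊗ₜ[R] H.y) ^ w := by
    rw [map_zpow, h1, mul_zpow, mul_zpow, map_zpow, map_zpow]
  have h3 := congrArg Units.val h2
  rw [Units.val_mul, Units.val_mul, one_add_zpow] at h3
  change Coalgebra.comul (R := R) ((H.t ^ w : Aˣ) : A) = (((H.t ^ w : Aˣ) : A) ⊗ₜ[R] 1) *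
    (1 ⊗ₜ[R] ((H.t ^ w : Aˣ) : A)) * _ at h3
  rwa [Algebra.TensorProduct.tmul_mul_tmul, mul_one, one_mul] at h3

lemma D_t (he : e * e = 0) (l : A →ₗ[R] R) (w : ℤ) :
    D l ((H.t ^ w : Aˣ) : A) = l ((H.t ^ w : Aˣ) : A) • ((H.t ^ w : Aˣ) : A) +
      (((w : R) * e) * l (((H.t ^ w : Aˣ) : A) * H.y)) • (((H.t ^ w : Aˣ) : A) * H.x) := by
  rw [D_apply, H.comul_t_zpow he, mul_add, mul_one, mul_smul_comm,
    Algebra.TensorProduct.tmul_mul_tmul, map_add, map_smul, E_tmul, E_tmul, smul_smul]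

/-- the projection to the weight `w` part -/
lemma D_c (he : e * e = 0) (w : ℤ) (i j : ℕ) (v : ℤ) :
    D (H.c 0 0 w) (H.b (i, j, v)) = if v = w then H.b (i, j, v) else 0 := by
  induction i with
  | succ i ih =>
    rw [← b_mul_x, H.D_mul_x _ 0 (fun b => by simp [c_mul_x0]), D_zero, ih]
    split_ifs <;> simp
  | zero =>
    induction j with
    | succ j ih =>
      rw [← b_mul_y, H.D_mul_y _ 0 (fun b => by simp [c_mul_y0]), D_zero, ih]
      split_ifs <;> simp
    | zero =>
      rw [H.hb, pow_zero, pow_zero, one_mul, one_mul, H.D_t he, c_t, c_mul_y0, mul_zero, zero_smul,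
        add_zero]
      simp only [true_and]
      split_ifs <;> simp

section comodule

variable {M : Type u} [AddCommGroup M] [Module R M] (ρ : Coaction R A M)

lemma map_act (l : A →ₗ[R] R) (m : M) :
    ρ.map (ρ.act l m) = (D l).lTensor M (ρ.map m) := by
  have nat : ∀ y : M ⊗[R] A, ρ.map ((TensorProduct.rid R M) ((l.lTensor M) y)) =
      (TensorProduct.rid R (M ⊗[R] A)) ((l.lTensor (M ⊗[R] A)) (ρ.map.rTensor A y)) := by
    intro y
    induction y using TensorProduct.induction_on with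
    | zero => simp
    | add x y hx hy => simp only [map_add, hx, hy]
    | tmul v a => simp
  have h := LinearMap.congr_fun ρ.coassoc m
  simp only [LinearMap.coe_comp, Function.comp_apply, LinearEquiv.coe_coe] at h
  have h2 : ρ.map.rTensor A (ρ.map m) = (TensorProduct.assoc R M A A).symm
      ((Coalgebra.comul (R := R) (A := A)).lTensor M (ρ.map m)) := by
    rw [← h, LinearEquiv.symm_apply_apply]
  simp only [Coaction.act, LinearMap.coe_comp, Function.comp_apply, LinearEquiv.coe_coe]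
  rw [nat, h2]
  generalize ρ.map m = z
  induction z using TensorProduct.induction_on with
  | zero => simp
  | add x y hx hy => simp only [map_add, hx, hy]
  | tmul v a =>
    simp only [LinearMap.lTensor_tmul, D_apply]
    generalize Coalgebra.comul (R := R) a = y
    induction y using TensorProduct.induction_on with
    | zero => simp
    | add x y hx hy => simp only [map_add, TensorProduct.tmul_add, hx, hy]
    | tmul v' a' =>
      rw [TensorProduct.assoc_symm_tmul, LinearMap.lTensor_tmul, TensorProduct.rid_tmul, E_tmul,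
        TensorProduct.tmul_smul]

end comodule

lemma counit_x : Coalgebra.counit (R := R) H.x = 0 := by
  have h := Coalgebra.rTensor_counit_comul (R := R) H.x
  rw [H.dx, map_add, LinearMap.rTensor_tmul, LinearMap.rTensor_tmul, Bialgebra.counit_one] at h
  have h2 : (Coalgebra.counit (R := R) H.x) ⊗ₜ[R] (1 : A) = 0 := by
    have := congrArg (fun z => z - (1 : R) ⊗ₜ[R] H.x) h
    simpa using this
  have h3 := congrArg (fun z => Coalgebra.counit (R := R) (TensorProduct.lid R A z)) h2
  simpa using h3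

lemma counit_y : Coalgebra.counit (R := R) H.y = 0 := by
  have h := Coalgebra.rTensor_counit_comul (R := R) H.y
  rw [H.dy, map_add, LinearMap.rTensor_tmul, LinearMap.rTensor_tmul, Bialgebra.counit_one] at h
  have h2 : (Coalgebra.counit (R := R) H.y) ⊗ₜ[R] (1 : A) = 0 := by
    have := congrArg (fun z => z - (1 : R) ⊗ₜ[R] H.y) h
    simpa using this
  have h3 := congrArg (fun z => Coalgebra.counit (R := R) (TensorProduct.lid R A z)) h2
  simpa using h3

lemma counit_mul (a b : A) : Coalgebra.counit (R := R) (a * b) =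
    Coalgebra.counit (R := R) a * Coalgebra.counit (R := R) b :=
  map_mul (Bialgebra.counitAlgHom R A) _ _

lemma counit_t : Coalgebra.counit (R := R) (H.t : A) = 1 := by
  have h := Coalgebra.rTensor_counit_comul (R := R) (H.t : A)
  rw [H.dt, mul_add, mul_one, mul_smul_comm, Algebra.TensorProduct.tmul_mul_tmul, map_add,
    map_smul, LinearMap.rTensor_tmul, LinearMap.rTensor_tmul, counit_mul, H.counit_x, mul_zero,
    TensorProduct.zero_tmul, smul_zero, add_zero] at h
  have h2 := congrArg (fun z => TensorProduct.lid R A z) h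
  simp only [TensorProduct.lid_tmul, one_smul] at h2
  have h3 := congrArg (fun z => z * ((H.t⁻¹ : Aˣ) : A)) h2
  simp only [smul_mul_assoc, Units.mul_inv] at h3
  have h4 := congrArg (fun z => Coalgebra.counit (R := R) z) h3
  simpa using h4

lemma counit_b (i j : ℕ) (w : ℤ) :
    Coalgebra.counit (R := R) (H.b (i, j, w)) = if i = 0 ∧ j = 0 then 1 else 0 := by
  rcases i with _ | i
  · rcases j with _ | j
    · have h1 : Units.map ((Bialgebra.counitAlgHom R A : A →ₐ[R] R) : A →* R) H.t = 1 := by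
        apply Units.ext
        exact H.counit_t
      have h2 : Units.map ((Bialgebra.counitAlgHom R A : A →ₐ[R] R) : A →* R) (H.t ^ w) = 1 := by
        rw [map_zpow, h1, one_zpow]
      have h3 := congrArg Units.val h2
      change Coalgebra.counit (R := R) ((H.t ^ w : Aˣ) : A) = 1 at h3
      rw [H.hb, pow_zero, pow_zero, one_mul, one_mul, h3]
      simp
    · rw [← b_mul_y, counit_mul, H.counit_y]; simp
  · rw [← b_mul_x, counit_mul, H.counit_x]; simp

end Heis

end

end Pool.Agent.KS6_82.RP
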