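import Pool.Agent.KS6_82.RP.Twist
import Pool.Graph.R_seed8.W457.T2

/-!
# The coordinate ring of `G_e` and its base change
-/

set_option autoImplicit false

open scoped TensorProduct
open Pool.Agent.W457

namespace Pool.Agent.KS6_82.RP

noncomputable section

universe u

section model

variable (R : Type u) [CommRing R] [Eps R]

omit [Eps R] in
lemma single_unit (a b : ℤ) (h : a + b = 0) : (AddMonoidAlgebra.single (0, 0, a) 1 :
    AddMonoidAlgebra R (ℕ × ℕ × ℤ)) * AddMonoidAlgebra.single (0, 0, b) 1 = 1 := by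
  rw [AddMonoidAlgebra.single_mul_single, AddMonoidAlgebra.one_def, one_mul]
  simp only [Prod.mk_add_mk, add_zero, h]
  rfl

variable {R} in
omit [Eps R] in
/-- the unit of the monoid algebra -/
def mU : (AddMonoidAlgebra R (ℕ × ℕ × ℤ))ˣ :=
  ⟨AddMonoidAlgebra.single (0, 0, 1) 1, AddMonoidAlgebra.single (0, 0, -1) 1,
    single_unit R _ _ (by norm_num), single_unit R _ _ (by norm_num)⟩

/-- the units `t` -/
def tU : (GA R)ˣ := (GA.isUnit_t R).unit

/-- monomials -/
def monHom : Multiplicative (ℕ × ℕ × ℤ) →* GA R where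
  toFun p := GA.gen R 0 ^ (Multiplicative.toAdd p).1 * GA.gen R 1 ^ (Multiplicative.toAdd p).2.1 *
    ((tU R ^ (Multiplicative.toAdd p).2.2 : (GA R)ˣ) : GA R)
  map_one' := by simp
  map_mul' := by
    intro p q
    simp only [toAdd_mul, Prod.fst_add, Prod.snd_add, pow_add, zpow_add, Units.val_mul]
    ring

/-- from the monoid algebra -/
def ofMA : AddMonoidAlgebra R (ℕ × ℕ × ℤ) →ₐ[R] GA R :=
  AddMonoidAlgebra.lift R (GA R) (ℕ × ℕ × ℤ) (monHom R)

lemma ofMA_single (p : ℕ × ℕ × ℤ) : ofMA R (AddMonoidAlgebra.single p 1) =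
    GA.gen R 0 ^ p.1 * GA.gen R 1 ^ p.2.1 * ((tU R ^ p.2.2 : (GA R)ˣ) : GA R) := by
  rw [ofMA, AddMonoidAlgebra.lift_single, one_smul]
  rfl

/-- to the monoid algebra -/
def toMA : GA R →ₐ[R] AddMonoidAlgebra R (ℕ × ℕ × ℤ) :=
  GA.lift ![AddMonoidAlgebra.single (1, 0, 0) 1, AddMonoidAlgebra.single (0, 1, 0) 1,
    AddMonoidAlgebra.single (0, 0, 1) 1] (by
      simp only [Matrix.cons_val]
      exact IsUnit.of_mul_eq_one (AddMonoidAlgebra.single (0, 0, -1) 1)
        (single_unit R _ _ (by norm_num)))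

lemma of_to : (ofMA R).comp (toMA R) = AlgHom.id R (GA R) := by
  apply GA.algHom_ext
  intro i
  fin_cases i
  · simp [toMA, ofMA_single]
  · simp [toMA, ofMA_single]
  · simp [toMA, ofMA_single, tU]

lemma to_t : Units.map ((toMA R : GA R →ₐ[R] AddMonoidAlgebra R (ℕ × ℕ × ℤ)) :
    GA R →* AddMonoidAlgebra R (ℕ × ℕ × ℤ)) (tU R) = mU := by
  apply Units.ext
  simp [tU, toMA, mU]

omit [Eps R] in
lemma single_zpow (w : ℤ) : ((mU ^ w : (AddMonoidAlgebra R (ℕ × ℕ × ℤ))ˣ) :
    AddMonoidAlgebra R (ℕ × ℕ × ℤ)) = AddMonoidAlgebra.single (0, 0, w) 1 := by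
  induction w using Int.induction_on with
  | zero => rw [zpow_zero, Units.val_one, AddMonoidAlgebra.one_def]; rfl
  | succ n ih =>
    rw [zpow_add_one, Units.val_mul, ih]
    change _ * AddMonoidAlgebra.single (0, 0, 1) 1 = _
    rw [AddMonoidAlgebra.single_mul_single]
    simp
  | pred n ih =>
    rw [zpow_sub_one, Units.val_mul, ih]
    change _ * AddMonoidAlgebra.single (0, 0, -1) 1 = _
    rw [AddMonoidAlgebra.single_mul_single]
    simp [sub_eq_add_neg]

lemma to_of : (toMA R).comp (ofMA R) = AlgHom.id R (AddMonoidAlgebra R (ℕ × ℕ × ℤ)) := by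
  refine AddMonoidAlgebra.algHom_ext ?_ (by ext)
  rintro ⟨i, j, w⟩
  have h1 : toMA R ((tU R ^ w : (GA R)ˣ) : GA R) = AddMonoidAlgebra.single (0, 0, w) 1 := by
    rw [← single_zpow, ← to_t, ← map_zpow]
    rfl
  have h2 : toMA R (GA.gen R 0) = AddMonoidAlgebra.single (1, 0, 0) 1 := by simp [toMA]
  have h3 : toMA R (GA.gen R 1) = AddMonoidAlgebra.single (0, 1, 0) 1 := by simp [toMA]
  rw [AlgHom.comp_apply, ofMA_single, map_mul, map_mul, map_pow, map_pow, h1, h2, h3,
    AddMonoidAlgebra.single_pow, AddMonoidAlgebra.single_pow, AddMonoidAlgebra.single_mul_single,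
    AddMonoidAlgebra.single_mul_single]
  simp

/-- the isomorphism with the monoid algebra -/
def maEquiv : AddMonoidAlgebra R (ℕ × ℕ × ℤ) ≃ₐ[R] GA R :=
  AlgEquiv.ofAlgHom (ofMA R) (toMA R) (of_to R) (to_of R)

/-- `GA R` is the coordinate ring of `G_e` -/
def heisGA : Heis (Eps.e : R) (GA R) where
  x := GA.gen R 0
  y := GA.gen R 1
  t := tU R
  dx := GA.comulA_0
  dy := GA.comulA_1
  dt := by
    have h : Coalgebra.comul (R := R) (GA.gen R 2) = _ := GA.comulA_2
    change Coalgebra.comul (R := R) (GA.gen R 2) = _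
    rw [h, GA.ee, ← Algebra.smul_def]
    rfl
  b := (AddMonoidAlgebra.basis (ℕ × ℕ × ℤ) R).map (maEquiv R).toLinearEquiv
  hb := by
    intro i j w
    rw [Module.Basis.map_apply, AddMonoidAlgebra.basis_apply]
    exact ofMA_single R (i, j, w)

end model

/-- base change -/
def Heis.baseChange {R : Type u} [CommRing R] {e : R} {A : Type u} [CommRing A] [Bialgebra R A]
    (H : Heis e A) (S : Type u) [CommRing S] [Algebra R S] :
    Heis (algebraMap R S e) (S ⊗[R] A) where
  x := 1 ⊗ₜ H.x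
  y := 1 ⊗ₜ H.y
  t := Units.map ((Algebra.TensorProduct.includeRight : A →ₐ[R] S ⊗[R] A) : A →* S ⊗[R] A) H.t
  dx := by
    rw [TensorProduct.comul_tmul, H.dx, TensorProduct.tmul_add, map_add]
    simp [Algebra.TensorProduct.one_def]
  dy := by
    rw [TensorProduct.comul_tmul, H.dy, TensorProduct.tmul_add, map_add]
    simp [Algebra.TensorProduct.one_def]
  dt := by
    change Coalgebra.comul (R := S) ((1 : S) ⊗ₜ[R] (H.t : A)) =
      (((1 : S) ⊗ₜ[R] (H.t : A)) ⊗ₜ[S] ((1 : S) ⊗ₜ[R] (H.t : A))) * _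
    rw [TensorProduct.comul_tmul, H.dt, mul_add, mul_one, mul_smul_comm,
      Algebra.TensorProduct.tmul_mul_tmul, TensorProduct.tmul_add, map_add,
      TensorProduct.tmul_smul, mul_add, mul_one, mul_smul_comm,
      Algebra.TensorProduct.tmul_mul_tmul, Algebra.TensorProduct.tmul_mul_tmul,
      Algebra.TensorProduct.tmul_mul_tmul]
    rw [← algebraMap_smul S e, map_smul]
    simp
  b := H.b.baseChange S
  hb := by
    intro i j w
    rw [Module.Basis.baseChange_apply, H.hb]
    let f : A →ₐ[R] S ⊗[R] A := Algebra.TensorProduct.includeRight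
    change f _ = (f H.x) ^ i * (f H.y) ^ j * _
    rw [map_mul, map_mul, map_pow, map_pow, ← map_zpow]
    rfl

end

end Pool.Agent.KS6_82.RP
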