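import Pool.Agent.KS6_82.RP.Twist

/-!
# Failure of the resolution property
-/

set_option autoImplicit false

open scoped TensorProduct
open Pool.Agent.W457

namespace Pool.Agent.KS6_82.RP

noncomputable section

universe u

/-- Linear algebra over a local ring. -/
lemma local_zero {L : Type u} [CommRing L] [IsLocalRing L] (c : L)
    (hc0 : ∀ n : ℕ, 0 < n → (n : L) * c ≠ 0)
    {W : Type u} [AddCommGroup W] [Module L W] [Module.Finite L W] [Module.Projective L W]
    (X Y P : Module.End L W) (hc : X * Y - Y * X = c • P) (hP : P * P = P) : P = 0 := by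
  have htr : c * LinearMap.trace L W P = 0 := by
    have h2 := congrArg (LinearMap.trace L W) hc
    rw [map_sub, LinearMap.trace_mul_comm, sub_self, map_smul, smul_eq_mul] at h2
    exact h2.symm
  -- the range and the kernel of `P` are free
  have hproj1 : Module.Projective L (LinearMap.range P) := by
    refine Module.Projective.of_split (LinearMap.range P).subtype P.rangeRestrict ?_
    ext ⟨_, v, rfl⟩
    exact LinearMap.congr_fun hP v
  have hmem : ∀ v, (LinearMap.id - P : W →ₗ[L] W) v ∈ LinearMap.ker P := by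
    intro v
    rw [LinearMap.mem_ker, LinearMap.sub_apply, map_sub, LinearMap.id_apply]
    have := LinearMap.congr_fun hP v
    rw [Module.End.mul_apply] at this
    rw [this, sub_self]
  have hproj2 : Module.Projective L (LinearMap.ker P) := by
    refine Module.Projective.of_split (LinearMap.ker P).subtype
      (LinearMap.codRestrict (LinearMap.ker P) (LinearMap.id - P : W →ₗ[L] W) hmem) ?_
    ext ⟨v, hv⟩
    rw [LinearMap.mem_ker] at hv
    simp [hv]
  have hfin2 : Module.Finite L (LinearMap.ker P) := by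
    refine Module.Finite.of_surjective
      (LinearMap.codRestrict (LinearMap.ker P) (LinearMap.id - P : W →ₗ[L] W) hmem) ?_
    rintro ⟨v, hv⟩
    rw [LinearMap.mem_ker] at hv
    exact ⟨v, by ext; simp [hv]⟩
  have hfree1 : Module.Free L (LinearMap.range P) := Module.free_of_flat_of_isLocalRing
  have hfree2 : Module.Free L (LinearMap.ker P) := Module.free_of_flat_of_isLocalRing
  have hisproj : LinearMap.IsProj (LinearMap.range P) P := by
    constructor
    · intro v
      exact ⟨v, rfl⟩
    · rintro _ ⟨v, rfl⟩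
      exact LinearMap.congr_fun hP v
  rw [hisproj.trace] at htr
  have hr : Module.finrank L (LinearMap.range P) = 0 := by
    by_contra h
    apply hc0 _ (Nat.pos_of_ne_zero h)
    rw [mul_comm]
    exact htr
  have hbot : LinearMap.range P = ⊥ := by
    have h0 := Module.finrank_eq_zero_iff_of_free L (LinearMap.range P) |>.1 hr
    exact (Submodule.eq_bot_iff _).2 fun x hx => by
      have := Subsingleton.elim (⟨x, hx⟩ : LinearMap.range P) 0
      exact congrArg Subtype.val this
  exact LinearMap.range_eq_bot.1 hbot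

/-- Linear algebra core over a local algebra `L`. -/
lemma local_core {R : Type u} [CommRing R] (e : R) (L : Type u) [CommRing L] [IsLocalRing L]
    [Algebra R L] (heL : ∀ n : ℕ, 0 < n → (n : L) * algebraMap R L e ≠ 0)
    (hem : IsLocalRing.residue L (algebraMap R L e) = 0)
    {V : Type u} [AddCommGroup V] [Module R V] [Module.Finite R V] [Module.Projective R V]
    (X Y P : Module.End R V) (hXY : X * Y - Y * X = e • P) (hP : P * P = P)
    (f : V →ₗ[R] R ⧸ Ideal.span {e}) (hf : Function.Surjective f) (hfP : f ∘ₗ P = f) : False := by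
  have hPL0 : P.baseChange L = 0 := by
    refine local_zero (algebraMap R L e) heL (X.baseChange L) (Y.baseChange L)
      (P.baseChange L) ?_ ?_
    · have h2 := congrArg (LinearMap.baseChange L) hXY
      rw [LinearMap.baseChange_sub, LinearMap.baseChange_smul] at h2
      rw [algebraMap_smul, ← h2]
      change (X.baseChange L) ∘ₗ (Y.baseChange L) - (Y.baseChange L) ∘ₗ (X.baseChange L) = _
      rw [← LinearMap.baseChange_comp, ← LinearMap.baseChange_comp]
      rfl
    · have h2 := congrArg (LinearMap.baseChange L) hP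
      change (P.baseChange L) ∘ₗ (P.baseChange L) = _
      rw [← LinearMap.baseChange_comp]
      exact h2
  -- contradiction with the surjection
  let κ := IsLocalRing.ResidueField L
  let g : (R ⧸ Ideal.span {e}) →ₐ[R] κ := Ideal.Quotient.liftₐ (Ideal.span {e})
    (Algebra.ofId R κ) (by
      intro a ha
      rw [Ideal.mem_span_singleton] at ha
      obtain ⟨b, rfl⟩ := ha
      have h2 : algebraMap R κ e = 0 := by
        rw [IsScalarTower.algebraMap_apply R L κ]
        exact hem
      rw [Algebra.ofId_apply, map_mul, h2, zero_mul])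
  let G : L ⊗[R] (R ⧸ Ideal.span {e}) →ₗ[L] κ :=
    (Algebra.TensorProduct.lift (Algebra.ofId L κ) g fun _ _ => Commute.all _ _).toLinearMap
  have hsurj : Function.Surjective (f.baseChange L) :=
    LinearMap.lTensor_surjective L hf
  obtain ⟨z, hz⟩ := hsurj (1 ⊗ₜ 1)
  have h3 : f.baseChange L z = 0 := by
    have h4 : f.baseChange L = f.baseChange L ∘ₗ P.baseChange L := by
      rw [← LinearMap.baseChange_comp, hfP]
    rw [h4, hPL0]
    simp
  have h5 : G (1 ⊗ₜ 1) = 1 := by
    simp only [G, AlgHom.toLinearMap_apply]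
    rw [← Algebra.TensorProduct.one_def, map_one]
  rw [← hz, h3, map_zero] at h5
  exact zero_ne_one h5

/-- Linear algebra core: if `X Y - Y X = e P` for an idempotent endomorphism `P` of a finitely
generated projective module `V` and some `f : V → R / e` is surjective with `f P = f`, then the
nilpotent element `e` has finite additive order. -/
lemma torsion_of_commutator {R : Type u} [CommRing R] (e : R) (he : e * e = 0)
    {V : Type u} [AddCommGroup V] [Module R V] [Module.Finite R V] [Module.Projective R V]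
    (X Y P : Module.End R V) (hXY : X * Y - Y * X = e • P) (hP : P * P = P)
    (f : V →ₗ[R] R ⧸ Ideal.span {e}) (hf : Function.Surjective f) (hfP : f ∘ₗ P = f) :
    ∃ n : ℕ, 0 < n ∧ n • e = 0 := by
  by_contra hcon
  push Not at hcon
  -- the elements `r` such that `r e` has finite order
  let 𝔞 : Ideal R :=
    { carrier := {r | ∃ n : ℕ, 0 < n ∧ n • (r * e) = 0}
      add_mem' := by
        rintro a b ⟨n, hn, ha⟩ ⟨m, hm, hb⟩
        refine ⟨n * m, Nat.mul_pos hn hm, ?_⟩
        rw [add_mul, smul_add, mul_comm n m, mul_smul, ha, smul_zero, zero_add, mul_comm m n,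
          mul_smul, hb, smul_zero]
      zero_mem' := ⟨1, one_pos, by simp⟩
      smul_mem' := by
        rintro c a ⟨n, hn, ha⟩
        refine ⟨n, hn, ?_⟩
        rw [smul_eq_mul, mul_assoc, ← mul_smul_comm, ha, mul_zero] }
  have h1 : 𝔞 ≠ ⊤ := by
    intro h
    have : (1 : R) ∈ 𝔞 := by rw [h]; exact Submodule.mem_top
    obtain ⟨n, hn, h2⟩ := this
    rw [one_mul] at h2
    exact hcon n hn h2
  obtain ⟨𝔪, hm, h𝔪⟩ := Ideal.exists_le_maximal 𝔞 h1
  have : 𝔪.IsPrime := hm.isPrime
  have hem : e ∈ 𝔪 := by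
    have : e * e ∈ 𝔪 := by rw [he]; exact Ideal.zero_mem _
    exact (‹𝔪.IsPrime›.mem_or_mem this).elim id id
  refine local_core e (Localization.AtPrime 𝔪) ?_ ?_ X Y P hXY hP f hf hfP
  · intro n hn h
    have h2 : algebraMap R (Localization.AtPrime 𝔪) (n • e) = 0 := by
      rw [nsmul_eq_mul, map_mul, map_natCast, h]
    rw [IsLocalization.map_eq_zero_iff 𝔪.primeCompl] at h2
    obtain ⟨⟨s, hs⟩, h3⟩ := h2
    apply hs
    apply h𝔪
    refine ⟨n, hn, ?_⟩
    rw [nsmul_eq_mul] at h3 ⊢
    rw [← h3]
    ring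
  · rw [IsLocalRing.residue_eq_zero_iff]
    exact (IsLocalization.AtPrime.to_map_mem_maximal_iff (Localization.AtPrime 𝔪) 𝔪 e).2 hem

namespace Heis

variable {R : Type u} [CommRing R] {e : R} {A : Type u} [CommRing A] [Bialgebra R A]
  (H : Heis e A)

lemma conv_eq (l m : A →ₗ[R] R) : conv l m = l ∘ₗ D m := by
  ext a
  simp only [conv, LinearMap.coe_comp, Function.comp_apply, LinearEquiv.coe_coe, D_apply]
  generalize Coalgebra.comul (R := R) a = z
  induction z using TensorProduct.induction_on with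
  | zero => simp
  | add x y hx hy => simp only [map_add, hx, hy]
  | tmul u v => rw [TensorProduct.map_tmul, TensorProduct.lid_tmul, E_tmul, map_smul,
      smul_eq_mul, smul_eq_mul, mul_comm]

lemma D_c_mul_x (z : A) : D (H.c 0 0 1) (z * H.x) = D (H.c 0 0 1) z * H.x := by
  rw [H.D_mul_x _ 0 (fun b => by simp [c_mul_x0]), D_zero]; simp

lemma D_c_mul_y (z : A) : D (H.c 0 0 1) (z * H.y) = D (H.c 0 0 1) z * H.y := by
  rw [H.D_mul_y _ 0 (fun b => by simp [c_mul_y0]), D_zero]; simp

lemma D_x_mul_x (z : A) :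
    D (H.c 1 0 1) (z * H.x) = D (H.c 1 0 1) z * H.x + D (H.c 0 0 1) z :=
  H.D_mul_x _ _ (fun b => H.c_mul_x 0 0 1 b) z

lemma D_x_mul_y (z : A) : D (H.c 1 0 1) (z * H.y) = D (H.c 1 0 1) z * H.y := by
  rw [H.D_mul_y _ 0 (fun b => by simp [c_mul_y0]), D_zero]; simp

lemma D_y_mul_x (z : A) : D (H.c 0 1 1) (z * H.x) = D (H.c 0 1 1) z * H.x := by
  rw [H.D_mul_x _ 0 (fun b => by simp [c_mul_x0]), D_zero]; simp

lemma D_y_mul_y (z : A) :
    D (H.c 0 1 1) (z * H.y) = D (H.c 0 1 1) z * H.y + D (H.c 0 0 1) z :=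
  H.D_mul_y _ _ (fun b => H.c_mul_y 0 0 1 b) z

lemma c_t_mul_y (i j : ℕ) (w v : ℤ) : H.c i j w (((H.t ^ v : Aˣ) : A) * H.y) =
    if 0 = i ∧ 1 = j ∧ v = w then 1 else 0 := by
  have := H.c_b i j w 0 1 v
  rw [H.hb] at this
  rw [← this]
  congr 1
  ring

lemma c_t_mul_x (i j : ℕ) (w v : ℤ) : H.c i j w (((H.t ^ v : Aˣ) : A) * H.x) =
    if 1 = i ∧ 0 = j ∧ v = w then 1 else 0 := by
  have := H.c_b i j w 1 0 v
  rw [H.hb] at this
  rw [← this]
  congr 1
  ring

lemma D_c_t (he : e * e = 0) (v : ℤ) : D (H.c 0 0 1) ((H.t ^ v : Aˣ) : A) =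
    if v = 1 then ((H.t ^ v : Aˣ) : A) else 0 := by
  rw [H.D_t he, c_t, c_t_mul_y]
  by_cases h : v = 1 <;> simp [h]

lemma D_x_t (he : e * e = 0) (v : ℤ) : D (H.c 1 0 1) ((H.t ^ v : Aˣ) : A) = 0 := by
  rw [H.D_t he, c_t, c_t_mul_y]
  simp

lemma D_y_t (he : e * e = 0) (v : ℤ) : D (H.c 0 1 1) ((H.t ^ v : Aˣ) : A) =
    if v = 1 then e • (((H.t ^ v : Aˣ) : A) * H.x) else 0 := by
  rw [H.D_t he, c_t, c_t_mul_y]
  by_cases h : v = 1 <;> simp [h]

/-- the weight one part is a direct summand -/
lemma conv_cc (he : e * e = 0) : conv (H.c 0 0 1) (H.c 0 0 1) = H.c 0 0 1 := by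
  rw [← sub_eq_zero, conv_eq]
  apply H.ext_zero
  · intro z
    rw [LinearMap.sub_apply, LinearMap.comp_apply, D_c_mul_x, c_mul_x0, c_mul_x0, sub_zero]
  · intro z
    rw [LinearMap.sub_apply, LinearMap.comp_apply, D_c_mul_y, c_mul_y0, c_mul_y0, sub_zero]
  · intro v
    rw [LinearMap.sub_apply, LinearMap.comp_apply, H.D_c_t he]
    by_cases h : v = 1
    · simp [h]
    · rw [if_neg h, map_zero, c_t, if_neg (by tauto), sub_zero]

/-- commutator -/
lemma conv_comm (he : e * e = 0) : conv (H.c 1 0 1) (H.c 0 1 1) - conv (H.c 0 1 1) (H.c 1 0 1) =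
    e • H.c 0 0 1 := by
  have k1 : ∀ z, H.c 0 0 1 (D (H.c 0 1 1) z) = H.c 0 1 1 (D (H.c 0 0 1) z) := by
    intro z
    have : H.c 0 0 1 ∘ₗ D (H.c 0 1 1) - H.c 0 1 1 ∘ₗ D (H.c 0 0 1) = 0 := by
      apply H.ext_zero
      · intro z
        rw [LinearMap.sub_apply, LinearMap.comp_apply, LinearMap.comp_apply, D_y_mul_x, D_c_mul_x,
          c_mul_x0, c_mul_x0, sub_zero]
      · intro z
        rw [LinearMap.sub_apply, LinearMap.comp_apply, LinearMap.comp_apply, D_y_mul_y, D_c_mul_y,
          map_add, c_mul_y0, c_mul_y, zero_add, sub_self]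
      · intro v
        rw [LinearMap.sub_apply, LinearMap.comp_apply, LinearMap.comp_apply, H.D_y_t he,
          H.D_c_t he]
        split_ifs
        · rw [map_smul, c_mul_x0, c_t]; simp
        · simp
    have h := LinearMap.congr_fun this z
    rwa [LinearMap.sub_apply, LinearMap.comp_apply, LinearMap.comp_apply, LinearMap.zero_apply,
      sub_eq_zero] at h
  have k2 : ∀ z, H.c 0 0 1 (D (H.c 1 0 1) z) = H.c 1 0 1 (D (H.c 0 0 1) z) := by
    intro z
    have : H.c 0 0 1 ∘ₗ D (H.c 1 0 1) - H.c 1 0 1 ∘ₗ D (H.c 0 0 1) = 0 := by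
      apply H.ext_zero
      · intro z
        rw [LinearMap.sub_apply, LinearMap.comp_apply, LinearMap.comp_apply, D_x_mul_x, D_c_mul_x,
          map_add, c_mul_x0, c_mul_x, zero_add, sub_self]
      · intro z
        rw [LinearMap.sub_apply, LinearMap.comp_apply, LinearMap.comp_apply, D_x_mul_y, D_c_mul_y,
          c_mul_y0, c_mul_y0, sub_zero]
      · intro v
        rw [LinearMap.sub_apply, LinearMap.comp_apply, LinearMap.comp_apply, H.D_x_t he,
          H.D_c_t he]
        split_ifs
        · rw [c_t]; simp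
        · simp
    have h := LinearMap.congr_fun this z
    rwa [LinearMap.sub_apply, LinearMap.comp_apply, LinearMap.comp_apply, LinearMap.zero_apply,
      sub_eq_zero] at h
  rw [← sub_eq_zero, conv_eq, conv_eq]
  apply H.ext_zero
  · intro z
    simp only [LinearMap.sub_apply, LinearMap.comp_apply, LinearMap.smul_apply]
    rw [D_y_mul_x, D_x_mul_x, map_add, c_mul_x, c_mul_x0, c_mul_x0, k1]
    simp
  · intro z
    simp only [LinearMap.sub_apply, LinearMap.comp_apply, LinearMap.smul_apply]
    rw [D_y_mul_y, D_x_mul_y, map_add, c_mul_y, c_mul_y0, c_mul_y0, k2]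
    simp
  · intro v
    simp only [LinearMap.sub_apply, LinearMap.comp_apply, LinearMap.smul_apply]
    rw [H.D_y_t he, H.D_x_t he, c_t]
    by_cases h : v = 1
    · rw [if_pos h, map_smul, c_t_mul_x]; simp [h]
    · rw [if_neg h, map_zero, map_zero, if_neg (by tauto)]; simp

/-- the comodule `R / e` of weight one -/
def chi (H : Heis e A) : Coaction R A (R ⧸ Ideal.span {e}) where
  map := (TensorProduct.mk R (R ⧸ Ideal.span {e}) A).flip (H.t : A)
  coassoc := by
    apply LinearMap.ext
    intro m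
    have h0 : e • m = 0 := by
      rw [Algebra.smul_def]
      have : algebraMap R (R ⧸ Ideal.span {e}) e = 0 :=
        Ideal.Quotient.eq_zero_iff_mem.2 (Ideal.mem_span_singleton_self e)
      rw [this, zero_mul]
    simp only [LinearMap.coe_comp, Function.comp_apply, LinearEquiv.coe_coe, LinearMap.flip_apply,
      TensorProduct.mk_apply, LinearMap.rTensor_tmul, TensorProduct.assoc_tmul,
      LinearMap.lTensor_tmul]
    rw [H.dt, mul_add, mul_one, mul_smul_comm, TensorProduct.tmul_add, TensorProduct.tmul_smul,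
      TensorProduct.smul_tmul', h0, TensorProduct.zero_tmul, add_zero]
  counit := by
    apply LinearMap.ext
    intro m
    simp [H.counit_t]

lemma chi_act : H.chi.act (H.c 0 0 1) = LinearMap.id := by
  apply LinearMap.ext
  intro m
  have h := H.c_t 0 0 1 1
  simp only [zpow_one, and_self, if_true] at h
  simp [chi, Coaction.act, h]

/-- If `R / e`, with weight one, is a quotient of a finitely generated projective comodule, then
`e` has finite additive order. -/
theorem torsion_of_surjection (he : e * e = 0)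
    {V : Type u} [AddCommGroup V] [Module R V] [Module.Finite R V] [Module.Projective R V]
    (σ : Coaction R A V) (f : V →ₗ[R] R ⧸ Ideal.span {e})
    (hf : H.chi.map ∘ₗ f = f.rTensor A ∘ₗ σ.map) (hs : Function.Surjective f) :
    ∃ n : ℕ, 0 < n ∧ n • e = 0 := by
  refine torsion_of_commutator e he (σ.act (H.c 1 0 1)) (σ.act (H.c 0 1 1)) (σ.act (H.c 0 0 1))
    ?_ ?_ f hs ?_
  · change σ.act _ ∘ₗ σ.act _ - σ.act _ ∘ₗ σ.act _ = _
    rw [σ.act_comp, σ.act_comp, ← σ.act_sub, H.conv_comm he, σ.act_smul]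
  · change σ.act _ ∘ₗ σ.act _ = _
    rw [σ.act_comp, H.conv_cc he]
  · rw [← σ.act_hom H.chi f hf, chi_act, LinearMap.id_comp]

end Heis

end

end Pool.Agent.KS6_82.RP
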