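import Pool.Agent.KS6_82.RP.Fam

/-!
# The oscillator representation modulo `n`

Raising and lowering operators on the free module with basis `w_0, …, w_{n-1}`: the lowering
operator maps `w_{j+1}` to `w_j` or `e (j + 1) w_j`, the raising operator maps `w_j` to
`e (j + 1) w_{j+1}` or `w_{j+1}`, in turn. The commutator is `e` if `n e = 0`.
-/

set_option autoImplicit false

namespace Pool.Agent.KS6_82.RP

noncomputable section

universe u

variable {R : Type u} [CommRing R]

/-- coefficient of the raising operator from `i - 1` to `i` -/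
def al (e : R) (i : ℕ) : R := if i % 2 = 0 then 1 else e * i

/-- coefficient of the lowering operator from `i + 1` to `i` -/
def be (e : R) (i : ℕ) : R := if i % 2 = 0 then 1 else e * (i + 1)

lemma be_al (e : R) (i : ℕ) : be e i * al e (i + 1) = e * (i + 1) := by
  rcases Nat.mod_two_eq_zero_or_one i with h | h
  · have h2 : (i + 1) % 2 ≠ 0 := by omega
    rw [be, al, if_pos h, if_neg h2]; push_cast; ring
  · have h2 : (i + 1) % 2 = 0 := by omega
    have h3 : i % 2 ≠ 0 := by omega
    rw [be, al, if_neg h3, if_pos h2, mul_one]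

lemma al_al (e : R) (he : e * e = 0) (i : ℕ) : e * (al e (i + 1) * al e i) = 0 := by
  rcases Nat.mod_two_eq_zero_or_one i with h | h
  · have h2 : (i + 1) % 2 ≠ 0 := by omega
    rw [al, al, if_pos h, if_neg h2, mul_one, ← mul_assoc, he, zero_mul]
  · have h2 : (i + 1) % 2 = 0 := by omega
    have h3 : i % 2 ≠ 0 := by omega
    rw [al, al, if_neg h3, if_pos h2, one_mul, ← mul_assoc, he, zero_mul]

lemma be_be (e : R) (he : e * e = 0) (i : ℕ) : e * (be e i * be e (i + 1)) = 0 := by
  rcases Nat.mod_two_eq_zero_or_one i with h | h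
  · have h2 : (i + 1) % 2 ≠ 0 := by omega
    rw [be, be, if_pos h, if_neg h2, one_mul, ← mul_assoc, he, zero_mul]
  · have h2 : (i + 1) % 2 = 0 := by omega
    have h3 : i % 2 ≠ 0 := by omega
    rw [be, be, if_neg h3, if_pos h2, mul_one, ← mul_assoc, he, zero_mul]

lemma al_dvd (e : R) (i : ℕ) : ∃ c, al e (i + 1) * al e i = e * c := by
  rcases Nat.mod_two_eq_zero_or_one i with h | h
  · have h2 : (i + 1) % 2 ≠ 0 := by omega
    exact ⟨_, by rw [al, al, if_pos h, if_neg h2, mul_one]⟩
  · have h2 : (i + 1) % 2 = 0 := by omega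
    have h3 : i % 2 ≠ 0 := by omega
    exact ⟨_, by rw [al, al, if_neg h3, if_pos h2, one_mul]⟩

lemma be_dvd (e : R) (i : ℕ) : ∃ c, be e i * be e (i + 1) = e * c := by
  rcases Nat.mod_two_eq_zero_or_one i with h | h
  · have h2 : (i + 1) % 2 ≠ 0 := by omega
    exact ⟨_, by rw [be, be, if_pos h, if_neg h2, one_mul]⟩
  · have h2 : (i + 1) % 2 = 0 := by omega
    have h3 : i % 2 ≠ 0 := by omega
    exact ⟨_, by rw [be, be, if_neg h3, if_pos h2, mul_one]⟩

/-- the raising operator -/
def up (n : ℕ) (e : R) : (Fin n → R) →ₗ[R] (Fin n → R) where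
  toFun f i := if h : 1 ≤ (i : ℕ) then al e i * f ⟨i - 1, by omega⟩ else 0
  map_add' f g := by
    ext i
    simp only [Pi.add_apply]
    split_ifs <;> ring
  map_smul' r f := by
    ext i
    simp only [Pi.smul_apply, smul_eq_mul, RingHom.id_apply]
    split_ifs <;> ring

/-- the lowering operator -/
def down (n : ℕ) (e : R) : (Fin n → R) →ₗ[R] (Fin n → R) where
  toFun f i := if h : (i : ℕ) + 1 < n then be e i * f ⟨i + 1, h⟩ else 0
  map_add' f g := by
    ext i
    simp only [Pi.add_apply]
    split_ifs <;> ring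
  map_smul' r f := by
    ext i
    simp only [Pi.smul_apply, smul_eq_mul, RingHom.id_apply]
    split_ifs <;> ring

lemma up_apply (n : ℕ) (e : R) (f : Fin n → R) (i : Fin n) :
    up n e f i = if h : 1 ≤ (i : ℕ) then al e i * f ⟨i - 1, by omega⟩ else 0 := rfl

lemma down_apply (n : ℕ) (e : R) (f : Fin n → R) (i : Fin n) :
    down n e f i = if h : (i : ℕ) + 1 < n then be e i * f ⟨i + 1, h⟩ else 0 := rfl

lemma down_up (n : ℕ) (e : R) (hn : (n : R) * e = 0) :
    down n e * up n e = up n e * down n e + e • 1 := by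
  apply LinearMap.ext
  intro f
  ext ⟨i, hi⟩
  simp only [Module.End.mul_apply, LinearMap.add_apply, LinearMap.smul_apply,
    Module.End.one_apply, Pi.add_apply, Pi.smul_apply, smul_eq_mul]
  have h1 : down n e (up n e f) ⟨i, hi⟩ = e * (i + 1) * f ⟨i, hi⟩ := by
    rw [down_apply]
    split_ifs with h
    · rw [up_apply, dif_pos (by simp), ← mul_assoc]
      simp only [Nat.add_sub_cancel]
      rw [be_al]
    · have : i + 1 = n := by simp only at h; omega
      have h2 : ((i : R) + 1) = n := by rw [← this]; push_cast; ring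
      rw [h2, mul_comm e, hn, zero_mul]
  have h2 : up n e (down n e f) ⟨i, hi⟩ = e * i * f ⟨i, hi⟩ := by
    rw [up_apply]
    split_ifs with h
    · simp only at h
      obtain ⟨k, rfl⟩ : ∃ k, i = k + 1 := ⟨i - 1, by omega⟩
      rw [down_apply, dif_pos (by simp only [Nat.add_sub_cancel]; omega), ← mul_assoc]
      simp only [Nat.add_sub_cancel]
      rw [mul_comm (al e (k + 1)), be_al]
      push_cast
      ring
    · have : i = 0 := by simp only at h; omega
      subst this
      simp
  rw [h1, h2]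
  ring

lemma up_sq (n : ℕ) (e : R) (f : Fin n → R) (i : Fin n) :
    up n e (up n e f) i = if h : 2 ≤ (i : ℕ) then (al e i * al e (i - 1)) *
      f ⟨i - 2, by omega⟩ else 0 := by
  obtain ⟨i, hi⟩ := i
  rw [up_apply]
  split_ifs with h1 h2 h2
  · rw [up_apply, dif_pos (by simp only at h2 ⊢; omega), mul_assoc]
    simp only [Nat.sub_sub, Nat.reduceAdd]
  · rw [up_apply, dif_neg (by simp only at h2 ⊢; omega), mul_zero]
  · simp only at h1 h2; omega
  · rfl

lemma down_sq (n : ℕ) (e : R) (f : Fin n → R) (i : Fin n) :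
    down n e (down n e f) i = if h : (i : ℕ) + 2 < n then (be e i * be e (i + 1)) *
      f ⟨i + 2, h⟩ else 0 := by
  obtain ⟨i, hi⟩ := i
  rw [down_apply]
  split_ifs with h1 h2 h2
  · rw [down_apply, dif_pos (by simp only at h2 ⊢; omega), mul_assoc]
  · rw [down_apply, dif_neg (by simp only at h2 ⊢; omega), mul_zero]
  · simp only at h1 h2; omega
  · rfl

lemma up_sq_dvd (n : ℕ) (e : R) : ∃ V : Module.End R (Fin n → R), up n e ^ 2 = e • V := by
  choose c hc using al_dvd e
  refine ⟨{ toFun := fun f i => if h : 2 ≤ (i : ℕ) then c (i - 1) * f ⟨i - 2, by omega⟩ else 0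
            map_add' := ?_, map_smul' := ?_ }, ?_⟩
  · intro f g
    ext i
    simp only [Pi.add_apply]
    split_ifs <;> ring
  · intro r f
    ext i
    simp only [Pi.smul_apply, smul_eq_mul, RingHom.id_apply]
    split_ifs <;> ring
  · apply LinearMap.ext
    intro f
    ext ⟨i, hi⟩
    rw [pow_two, Module.End.mul_apply, up_sq]
    simp only [LinearMap.smul_apply, LinearMap.coe_mk, AddHom.coe_mk, Pi.smul_apply, smul_eq_mul]
    split_ifs with h
    · obtain ⟨k, rfl⟩ : ∃ k, i = k + 1 := ⟨i - 1, by omega⟩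
      simp only [Nat.add_sub_cancel]
      rw [hc, mul_assoc]
    · rw [mul_zero]

lemma down_sq_dvd (n : ℕ) (e : R) : ∃ V : Module.End R (Fin n → R), down n e ^ 2 = e • V := by
  choose c hc using be_dvd e
  refine ⟨{ toFun := fun f i => if h : (i : ℕ) + 2 < n then c i * f ⟨i + 2, h⟩ else 0
            map_add' := ?_, map_smul' := ?_ }, ?_⟩
  · intro f g
    ext i
    simp only [Pi.add_apply]
    split_ifs <;> ring
  · intro r f
    ext i
    simp only [Pi.smul_apply, smul_eq_mul, RingHom.id_apply]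
    split_ifs <;> ring
  · apply LinearMap.ext
    intro f
    ext ⟨i, hi⟩
    rw [pow_two, Module.End.mul_apply, down_sq]
    simp only [LinearMap.smul_apply, LinearMap.coe_mk, AddHom.coe_mk, Pi.smul_apply, smul_eq_mul]
    split_ifs with h
    · rw [hc, mul_assoc]
    · rw [mul_zero]

lemma up_cube (e : R) : up 3 e ^ 3 = 0 := by
  apply LinearMap.ext
  intro f
  ext ⟨i, hi⟩
  rw [pow_succ', pow_two, Module.End.mul_apply, Module.End.mul_apply, up_apply]
  split_ifs with h
  · rw [up_sq, dif_neg (by simp only at h ⊢; omega), mul_zero]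
    rfl
  · rfl

lemma down_cube (e : R) : down 3 e ^ 3 = 0 := by
  apply LinearMap.ext
  intro f
  ext ⟨i, hi⟩
  rw [pow_succ', pow_two, Module.End.mul_apply, Module.End.mul_apply, down_apply]
  split_ifs with h
  · rw [down_sq, dif_neg (by simp only at h ⊢; omega), mul_zero]
    rfl
  · rfl

/-- the family, if `n e = 0` with `n` prime to `6` or `n = 3` -/
def oscFam (n : ℕ) (hn : 0 < n) (e h u : R) (he : e * e = 0) (hne : (n : R) * e = 0)
    (hh : (2 * h - 1) * e = 0) (hu : n = 3 ∨ (3 * u - h) * e = 0) : TwistFam R e := by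
  have : Nonempty (Fin n) := ⟨⟨0, hn⟩⟩
  let φ : Module.End R (Fin n → R) ≃ₐ[R] Matrix (Fin n) (Fin n) R := LinearMap.toMatrixAlgEquiv'
  have hd := down_sq_dvd n e
  have hU := up_sq_dvd n e
  refine famOf e h u (φ (down n e)) (φ (up n e)) he hh ?_ ?_ ?_ ?_ ?_ ?_ ?_ ?_ ?_
  · rw [← map_mul, ← map_mul, down_up n e hne, map_add, map_smul, map_one]
  · obtain ⟨V, hV⟩ := hd
    rw [← map_pow, hV, map_smul, smul_smul, he, zero_smul]
  · obtain ⟨V, hV⟩ := hU
    rw [← map_pow, hV, map_smul, smul_smul, he, zero_smul]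
  · obtain ⟨V, hV⟩ := hd
    rw [← map_pow, hV, map_smul, smul_smul, hh, zero_smul]
  · obtain ⟨V, hV⟩ := hU
    rw [← map_pow, hV, map_smul, smul_smul, hh, zero_smul]
  · obtain ⟨V, hV⟩ := hd
    rcases hu with rfl | hu
    · rw [← map_pow, down_cube, map_zero, smul_zero]
    · rw [← map_pow, pow_succ, hV, smul_mul_assoc, map_smul, smul_smul, hu, zero_smul]
  · obtain ⟨V, hV⟩ := hU
    rcases hu with rfl | hu
    · rw [← map_pow, up_cube, map_zero, smul_zero]
    · rw [← map_pow, pow_succ, hV, smul_mul_assoc, map_smul, smul_smul, hu, zero_smul]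
  · obtain ⟨V, hV⟩ := hd
    rw [← map_pow, show 4 = 2 * 2 from rfl, pow_mul, hV, smul_pow, pow_two e, he, zero_smul,
      map_zero]
  · obtain ⟨V, hV⟩ := hU
    rw [← map_pow, show 4 = 2 * 2 from rfl, pow_mul, hV, smul_pow, pow_two e, he, zero_smul,
      map_zero]

end

end Pool.Agent.KS6_82.RP
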