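import Pool.Agent.KS6_82.RP.Osc
import Pool.Agent.KS6_82.RP.Char2

/-!
# Tensor products of twisted families, and families for elements of odd order
-/

set_option autoImplicit false

open scoped Kronecker

namespace Pool.Agent.KS6_82.RP

noncomputable section

universe u

variable {R : Type u} [CommRing R]

lemma map_kron {S T : Type u} [CommRing S] [CommRing T] {κ κ' : Type} (f : S →+* T)
    (M : Matrix κ κ S) (N : Matrix κ' κ' S) : (M ⊗ₖ N).map f = (M.map f) ⊗ₖ (N.map f) := by
  ext ⟨i, i'⟩ ⟨j, j'⟩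
  simp [Matrix.kroneckerMap_apply]

/-- tensor products of twisted families -/
def TwistFam.tensor {e₁ e₂ : R} (T₁ : TwistFam R e₁) (T₂ : TwistFam R e₂) (h : e₁ * e₂ = 0) :
    TwistFam R (e₁ + e₂) :=
  letI := T₁.fin
  letI := T₂.fin
  letI := T₁.dec
  letI := T₂.dec
  letI := T₁.ne
  letI := T₂.ne
  { κ := T₁.κ × T₂.κ
    fin := inferInstance
    dec := inferInstance
    ne := inferInstance
    P := fun S _ _ x y => T₁.P S x y ⊗ₖ T₂.P S x y
    nat := by
      intro S T _ _ _ _ f x y
      have := map_kron (f : S →+* T) (T₁.P S x y) (T₂.P S x y)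
      change (T₁.P S x y ⊗ₖ T₂.P S x y).map (f : S →+* T) = _
      rw [this]
      congr 1
      · exact T₁.nat S T f x y
      · exact T₂.nat S T f x y
    zero := by
      intro S _ _
      rw [T₁.zero, T₂.zero, Matrix.one_kronecker_one]
    mul := by
      intro S _ _ x y X Y
      rw [← Matrix.mul_kronecker_mul, T₁.mul, T₂.mul, Matrix.smul_kronecker,
        Matrix.kronecker_smul, smul_smul]
      congr 1
      rw [Algebra.smul_def, Algebra.smul_def, Algebra.smul_def, map_add]
      have : algebraMap R S e₁ * algebraMap R S e₂ = 0 := by rw [← map_mul, h, map_zero]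
      linear_combination (x * Y) ^ 2 * this }

/-- change the element -/
def TwistFam.copy {e e' : R} (T : TwistFam R e) (h : e = e') : TwistFam R e' := h ▸ T

/-- the family for elements of order prime to `6` -/
lemma fam_coprime (e : R) (he : e * e = 0) (n : ℕ) (hn : 0 < n) (h2 : Nat.Coprime 2 n)
    (h3 : Nat.Coprime 3 n) (hne : (n : R) * e = 0) : Nonempty (TwistFam R e) := by
  have hz : ∀ k : ℤ, (n : ℤ) ∣ k → (k : R) * e = 0 := by
    rintro k ⟨c, rfl⟩
    push_cast
    rw [mul_comm (n : R), mul_assoc, hne, mul_zero]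
  obtain ⟨h, hh⟩ : ∃ h : ℤ, (n : ℤ) ∣ 2 * h - 1 := by
    have h2' : IsCoprime (2 : ℤ) n := by exact_mod_cast Nat.isCoprime_iff_coprime.2 h2
    obtain ⟨a, b, hab⟩ := h2'
    exact ⟨a, -b, by linear_combination hab⟩
  obtain ⟨u, hu⟩ : ∃ u : ℤ, (n : ℤ) ∣ 3 * u - h := by
    have h3' : IsCoprime (3 : ℤ) n := by exact_mod_cast Nat.isCoprime_iff_coprime.2 h3
    obtain ⟨a, b, hab⟩ := h3'
    exact ⟨a * h, -b * h, by linear_combination h * hab⟩
  refine ⟨oscFam n hn e (h : R) (u : R) he hne ?_ (Or.inr ?_)⟩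
  · have := hz _ hh
    push_cast at this
    exact this
  · have := hz _ hu
    push_cast at this
    exact this

/-- the family for elements of order `3` -/
lemma fam_three (e : R) (he : e * e = 0) (h3 : (3 : R) * e = 0) : Nonempty (TwistFam R e) :=
  ⟨oscFam 3 (by norm_num) e 2 0 he (by exact_mod_cast h3) (by linear_combination h3)
    (Or.inl rfl)⟩

/-- the family for elements of odd order not divisible by `9` -/
lemma fam_odd (e : R) (he : e * e = 0) (n : ℕ) (h2 : Odd n) (h9 : ¬ 9 ∣ n)
    (hne : (n : R) * e = 0) : Nonempty (TwistFam R e) := by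
  have hn : 0 < n := h2.pos
  by_cases h3 : 3 ∣ n
  · obtain ⟨m, rfl⟩ := h3
    have hm : 0 < m := by omega
    have hm3 : Nat.Coprime 3 m := by
      rw [Nat.Prime.coprime_iff_not_dvd Nat.prime_three]
      rintro ⟨k, rfl⟩
      exact h9 ⟨k, by ring⟩
    have hm2 : Nat.Coprime 2 m := by
      rw [Nat.coprime_two_left]
      exact Nat.Odd.of_mul_left (by rwa [mul_comm] at h2)
    obtain ⟨a, b, hab⟩ : IsCoprime (3 : ℤ) m := by
      exact_mod_cast Nat.isCoprime_iff_coprime.2 hm3
    have habR : (a : R) * 3 + b * m = 1 := by exact_mod_cast congrArg (Int.cast : ℤ → R) hab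
    push_cast at hne
    obtain ⟨T₁⟩ := fam_coprime ((a : R) * 3 * e)
      (by linear_combination ((a : R) * 3) ^ 2 * he) m hm hm2 hm3
      (by linear_combination (a : R) * hne)
    obtain ⟨T₂⟩ := fam_three ((b : R) * m * e)
      (by linear_combination ((b : R) * m) ^ 2 * he)
      (by linear_combination (b : R) * hne)
    exact ⟨(T₁.tensor T₂ (by linear_combination ((a : R) * 3) * (b * m) * he)).copy
      (by linear_combination e * habR)⟩
  · exact fam_coprime e he n hn (Nat.coprime_two_left.2 h2)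
      ((Nat.Prime.coprime_iff_not_dvd Nat.prime_three).2 h3) hne

end

end Pool.Agent.KS6_82.RP
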