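import Pool.Agent.KS6_82.RP.Heis

/-!
# The resolution property from twisted families of matrices
-/

set_option autoImplicit false

open scoped TensorProduct
open Pool.Agent.W457

namespace Pool.Agent.KS6_82.RP

noncomputable section

universe u

/-- A family of matrices `P x y` with `P x y * P x' y' = (1 + e x y') P (x + x') (y + y')`,
`P 0 0 = 1`: a representation of `G_e` on which the last coordinate acts by scalars. -/
structure TwistFam (R : Type u) [CommRing R] (e : R) where
  /-- the index set -/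
  κ : Type
  fin : Fintype κ
  dec : DecidableEq κ
  ne : Nonempty κ
  /-- the matrices -/
  P : ∀ (S : Type u) [CommRing S] [Algebra R S], S → S → Matrix κ κ S
  nat : ∀ (S T : Type u) [CommRing S] [Algebra R S] [CommRing T] [Algebra R T] (f : S →ₐ[R] T)
    (x y : S), (P S x y).map f = P T (f x) (f y)
  zero : ∀ (S : Type u) [CommRing S] [Algebra R S], P S 0 0 = 1
  mul : ∀ (S : Type u) [CommRing S] [Algebra R S] (x y X Y : S),
    P S x y * P S X Y = (1 + e • (x * Y)) • P S (x + X) (y + Y)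

/-- the trivial family -/
def TwistFam.trivial (R : Type u) [CommRing R] : TwistFam R (0 : R) where
  κ := Unit
  fin := inferInstance
  dec := inferInstance
  ne := inferInstance
  P _ _ _ _ _ := 1
  nat := by
    intro S T _ _ _ _ f x y
    exact Matrix.map_one f (map_zero f) (map_one f)
  zero := by intro S _ _; rfl
  mul := by intro S _ _ x y X Y; simp

namespace Heis

variable {R : Type u} [CommRing R] {e : R} {A : Type u} [CommRing A] [Bialgebra R A]
  (H : Heis e A)

/-- the monomials in `x` and `y` of bounded degree -/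
def a (N : ℕ) (α : Fin (N + 1) × Fin (N + 1)) : A := H.x ^ (α.1 : ℕ) * H.y ^ (α.2 : ℕ)

/-- the coordinates -/
def l (N : ℕ) (α : Fin (N + 1) × Fin (N + 1)) : A →ₗ[R] R := H.c α.1 α.2 0

lemma a_eq (N : ℕ) (α : Fin (N + 1) × Fin (N + 1)) : H.a N α = H.b ((α.1 : ℕ), (α.2 : ℕ), 0) := by
  rw [H.hb, a, zpow_zero, Units.val_one, mul_one]

lemma l_a (N : ℕ) (α β : Fin (N + 1) × Fin (N + 1)) :
    H.l N α (H.a N β) = if α = β then 1 else 0 := by
  rw [a_eq, l, c_b]
  refine if_congr ?_ rfl rfl
  simp only [and_true]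
  rw [Prod.ext_iff, Fin.ext_iff, Fin.ext_iff]
  constructor <;> rintro ⟨h1, h2⟩ <;> exact ⟨h1.symm, h2.symm⟩

lemma comul_pow (z : A) (hz : Coalgebra.comul (R := R) z = z ⊗ₜ[R] 1 + 1 ⊗ₜ[R] z) (N : ℕ)
    (i : Fin (N + 1)) : Coalgebra.comul (R := R) (z ^ (i : ℕ)) =
      ∑ m : Fin (N + 1), (((i : ℕ).choose m : A) * z ^ ((i : ℕ) - m)) ⊗ₜ[R] (z ^ (m : ℕ)) := by
  have h1 : Coalgebra.comul (R := R) (z ^ (i : ℕ)) =
      (Coalgebra.comul (R := R) z) ^ (i : ℕ) := map_pow (Bialgebra.comulAlgHom R A) _ _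
  rw [h1, hz, add_comm, add_pow, Fin.sum_univ_eq_sum_range
    (fun m => (((i : ℕ).choose m : A) * z ^ ((i : ℕ) - m)) ⊗ₜ[R] (z ^ m)) (N + 1)]
  have h2 : ∀ m, (((i : ℕ).choose m : A) * z ^ ((i : ℕ) - m)) ⊗ₜ[R] (z ^ m) =
      ((1 : A) ⊗ₜ[R] z) ^ m * (z ⊗ₜ[R] (1 : A)) ^ ((i : ℕ) - m) * ((i : ℕ).choose m : A ⊗[R] A) := by
    intro m
    have e1 : ((1 : A) ⊗ₜ[R] z) ^ m = 1 ⊗ₜ[R] (z ^ m) := by
      rw [Algebra.TensorProduct.tmul_pow, one_pow]
    have e2 : (z ⊗ₜ[R] (1 : A)) ^ ((i : ℕ) - m) = (z ^ ((i : ℕ) - m)) ⊗ₜ[R] 1 := by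
      rw [Algebra.TensorProduct.tmul_pow, one_pow]
    have e3 : (((i : ℕ).choose m : ℕ) : A ⊗[R] A) = (((i : ℕ).choose m : ℕ) : A) ⊗ₜ[R] 1 :=
      (map_natCast (Algebra.TensorProduct.includeLeft : A →ₐ[R] A ⊗[R] A) _).symm
    rw [e1, e2, e3, Algebra.TensorProduct.tmul_mul_tmul, Algebra.TensorProduct.tmul_mul_tmul,
      one_mul, mul_one, mul_one, mul_comm]
  simp only [h2]
  apply Finset.sum_subset
  · intro m hm
    simp only [Finset.mem_range] at hm ⊢
    omega
  · intro m _ hm
    simp only [Finset.mem_range, not_lt] at hm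
    rw [Nat.choose_eq_zero_of_lt (by omega)]
    simp

/-- the matrix of the comultiplication -/
def B (N : ℕ) : Matrix (Fin (N + 1) × Fin (N + 1)) (Fin (N + 1) × Fin (N + 1)) A := fun α β =>
  (((β.1 : ℕ).choose α.1 : A) * H.x ^ ((β.1 : ℕ) - α.1)) *
    (((β.2 : ℕ).choose α.2 : A) * H.y ^ ((β.2 : ℕ) - α.2))

lemma comul_a (N : ℕ) (β : Fin (N + 1) × Fin (N + 1)) :
    Coalgebra.comul (R := R) (H.a N β) = ∑ α, H.B N α β ⊗ₜ[R] H.a N α := by
  rw [a, comul_mul, comul_pow _ H.dx, comul_pow _ H.dy, Finset.sum_mul_sum, Fintype.sum_prod_type]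
  refine Finset.sum_congr rfl fun k _ => Finset.sum_congr rfl fun k' _ => ?_
  rw [Algebra.TensorProduct.tmul_mul_tmul]
  rfl

/-- truncation -/
def tr (N : ℕ) : A →ₗ[R] A := ∑ α, (H.l N α).smulRight (H.a N α)

lemma tr_lTensor {M : Type u} [AddCommGroup M] [Module R M] (N : ℕ) (z : M ⊗[R] A) :
    (H.tr N).lTensor M z =
      ∑ α, (TensorProduct.rid R M ((H.l N α).lTensor M z)) ⊗ₜ[R] H.a N α := by
  induction z using TensorProduct.induction_on with
  | zero => simp
  | add x y hx hy => simp only [map_add, TensorProduct.add_tmul, Finset.sum_add_distrib, hx, hy]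
  | tmul v c =>
    rw [LinearMap.lTensor_tmul, tr, LinearMap.sum_apply, TensorProduct.tmul_sum]
    refine Finset.sum_congr rfl fun α _ => ?_
    rw [LinearMap.smulRight_apply, LinearMap.lTensor_tmul, TensorProduct.rid_tmul,
      TensorProduct.smul_tmul]

lemma tr_b (N i j : ℕ) (hi : i ≤ N) (hj : j ≤ N) : H.tr N (H.b (i, j, 0)) = H.b (i, j, 0) := by
  rw [tr, LinearMap.sum_apply, Finset.sum_eq_single
    ((⟨i, by omega⟩, ⟨j, by omega⟩) : Fin (N + 1) × Fin (N + 1))]
  · rw [LinearMap.smulRight_apply, a_eq, l, c_b]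
    simp
  · rintro ⟨i', j'⟩ _ hne
    rw [LinearMap.smulRight_apply, l, c_b, if_neg, zero_smul]
    rintro ⟨h1, h2, -⟩
    apply hne
    simp only [Prod.mk.injEq, Fin.ext_iff]
    exact ⟨h1.symm, h2.symm⟩
  · intro h
    exact absurd (Finset.mem_univ _) h

/-- polynomials in `x` and `y` -/
def pol : Subalgebra R A := Algebra.adjoin R {H.x, H.y}

lemma x_mem : H.x ∈ H.pol := Algebra.subset_adjoin (by simp)
lemma y_mem : H.y ∈ H.pol := Algebra.subset_adjoin (by simp)

lemma tr_pol {z : A} (hz : z ∈ H.pol) : ∃ N, ∀ N' ≥ N, H.tr N' z = z := by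
  let S : Submodule R A := Submodule.span R (Set.range fun p : ℕ × ℕ => H.x ^ p.1 * H.y ^ p.2)
  have hmul : S * S ≤ S := by
    rw [Submodule.span_mul_span, Submodule.span_le]
    rintro _ ⟨_, ⟨p, rfl⟩, _, ⟨q, rfl⟩, rfl⟩
    apply Submodule.subset_span
    refine ⟨(p.1 + q.1, p.2 + q.2), ?_⟩
    simp only
    ring
  have h1 : z ∈ S := by
    refine Algebra.adjoin_induction (s := {H.x, H.y}) (p := fun z _ => z ∈ S) ?_ ?_ ?_ ?_ hz
    · rintro z hz
      rcases hz with rfl | hz
      · exact Submodule.subset_span ⟨(1, 0), by simp⟩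
      · rw [Set.mem_singleton_iff] at hz
        subst hz
        exact Submodule.subset_span ⟨(0, 1), by simp⟩
    · intro r
      rw [Algebra.algebraMap_eq_smul_one]
      exact Submodule.smul_mem _ _ (Submodule.subset_span ⟨(0, 0), by simp⟩)
    · intro x y _ _ hx hy
      exact Submodule.add_mem _ hx hy
    · intro x y _ _ hx hy
      exact hmul (Submodule.mul_mem_mul hx hy)
  refine Submodule.span_induction (p := fun z _ => ∃ N, ∀ N' ≥ N, H.tr N' z = z) ?_ ?_ ?_ ?_ h1
  · rintro _ ⟨p, rfl⟩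
    refine ⟨max p.1 p.2, fun N' hN' => ?_⟩
    have h2 : H.x ^ p.1 * H.y ^ p.2 = H.b (p.1, p.2, 0) := by
      rw [H.hb, zpow_zero, Units.val_one, mul_one]
    simp only [h2]
    exact H.tr_b _ _ _ (le_trans (le_max_left _ _) hN') (le_trans (le_max_right _ _) hN')
  · exact ⟨0, fun _ _ => map_zero _⟩
  · rintro x y _ _ ⟨N1, h1⟩ ⟨N2, h2⟩
    refine ⟨max N1 N2, fun N' hN' => ?_⟩
    rw [map_add, h1 _ (le_trans (le_max_left _ _) hN'), h2 _ (le_trans (le_max_right _ _) hN')]
  · rintro r x _ ⟨N1, h1⟩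
    exact ⟨N1, fun N' hN' => by rw [map_smul, h1 _ hN']⟩

lemma tr_tensor {M : Type u} [AddCommGroup M] [Module R M] (F : A →ₗ[R] A)
    (hF : ∀ z, F z ∈ H.pol) (z : M ⊗[R] A) :
    ∃ N, ∀ N' ≥ N, (H.tr N').lTensor M (F.lTensor M z) = F.lTensor M z := by
  induction z using TensorProduct.induction_on with
  | zero => exact ⟨0, fun _ _ => by simp⟩
  | add x y hx hy =>
    obtain ⟨N1, h1⟩ := hx
    obtain ⟨N2, h2⟩ := hy
    refine ⟨max N1 N2, fun N' hN' => ?_⟩
    rw [map_add, map_add, h1 _ (le_trans (le_max_left _ _) hN'),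
      h2 _ (le_trans (le_max_right _ _) hN')]
  | tmul v c =>
    obtain ⟨N, hN⟩ := H.tr_pol (hF c)
    exact ⟨N, fun N' hN' => by rw [LinearMap.lTensor_tmul, LinearMap.lTensor_tmul, hN _ hN']⟩

variable {M : Type u} [AddCommGroup M] [Module R M] (ρ : Coaction R A M)

/-- elements of weight `w` are covered, if there is a twisted family -/
lemma cov_weight (he : e * e = 0) (w : ℤ) (tw : TwistFam R ((w : R) * e)) (m : M) :
    Cov ρ (Submodule.span R {ρ.act (H.c 0 0 w) m}) := by
  classical
  obtain ⟨κ, ifin, idec, ⟨k0⟩, P, nat, zero, mul⟩ := tw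
  set ew : R := (w : R) * e with hew
  have hew2 : ew * ew = 0 := by rw [hew]; linear_combination ((w : R) * w) * he
  let g : Matrix κ κ A := ((H.t ^ w : Aˣ) : A) • P A H.x H.y
  let Q : Matrix κ κ A := (1 + ew • (H.x * H.y)) • P A (-H.x) (-H.y)
  let h : Matrix κ κ A := ((H.t ^ (-w) : Aˣ) : A) • Q
  have hz : (ew • (H.x * H.y)) * (ew • (H.x * H.y)) = 0 := by
    rw [smul_mul_smul_comm, hew2, zero_smul]
  have hPQ : P A H.x H.y * Q = 1 := by
    simp only [Q]
    rw [Matrix.mul_smul, mul, add_neg_cancel, add_neg_cancel, zero, smul_smul,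
      mul_neg, smul_neg, ← sub_eq_add_neg]
    have : (1 + ew • (H.x * H.y)) * (1 - ew • (H.x * H.y)) = 1 := by linear_combination -hz
    rw [this, one_smul]
  have hQP : Q * P A H.x H.y = 1 := by
    simp only [Q]
    rw [Matrix.smul_mul, mul, neg_add_cancel, neg_add_cancel, zero, smul_smul,
      neg_mul, smul_neg, ← sub_eq_add_neg]
    have : (1 + ew • (H.x * H.y)) * (1 - ew • (H.x * H.y)) = 1 := by linear_combination -hz
    rw [this, one_smul]
  have htt : ((H.t ^ w : Aˣ) : A) * ((H.t ^ (-w) : Aˣ) : A) = 1 := by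
    rw [← Units.val_mul, ← zpow_add, add_neg_cancel, zpow_zero, Units.val_one]
  have hgh : g * h = 1 := by
    simp only [g, h]
    rw [Matrix.smul_mul, Matrix.mul_smul, hPQ, smul_smul, htt, one_smul]
  have hhg : h * g = 1 := by
    simp only [g, h]
    rw [Matrix.smul_mul, Matrix.mul_smul, hQP, smul_smul, mul_comm, htt, one_smul]
  -- `g` is group-like
  have hg : GrpLike (R := R) g := by
    constructor
    · intro i j
      simp only [g, Matrix.smul_apply, smul_eq_mul]
      have e1 := congrFun (congrFun (nat A (A ⊗[R] A) (Bialgebra.comulAlgHom R A) H.x H.y) i) j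
      have e4 := congrFun (congrFun (mul (A ⊗[R] A) (H.x ⊗ₜ[R] 1) (H.y ⊗ₜ[R] 1)
        (1 ⊗ₜ[R] H.x) (1 ⊗ₜ[R] H.y)) i) j
      rw [comul_mul, H.comul_t_zpow he]
      change Coalgebra.comul (R := R) (P A H.x H.y i j) =
        P (A ⊗[R] A) (Coalgebra.comul (R := R) H.x) (Coalgebra.comul (R := R) H.y) i j at e1
      rw [e1, H.dx, H.dy]
      rw [Matrix.mul_apply, Matrix.smul_apply, smul_eq_mul, Algebra.TensorProduct.tmul_mul_tmul,
        one_mul, mul_one] at e4
      rw [mul_assoc, ← hew, ← e4, Finset.mul_sum]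
      refine Finset.sum_congr rfl fun k _ => ?_
      have e5 : P (A ⊗[R] A) (H.x ⊗ₜ[R] 1) (H.y ⊗ₜ[R] 1) i k = (P A H.x H.y i k) ⊗ₜ[R] 1 :=
        (congrFun (congrFun (nat A (A ⊗[R] A)
          (Algebra.TensorProduct.includeLeft : A →ₐ[R] A ⊗[R] A) H.x H.y) i) k).symm
      have e6 : P (A ⊗[R] A) (1 ⊗ₜ[R] H.x) (1 ⊗ₜ[R] H.y) k j = 1 ⊗ₜ[R] (P A H.x H.y k j) :=
        (congrFun (congrFun (nat A (A ⊗[R] A)
          (Algebra.TensorProduct.includeRight : A →ₐ[R] A ⊗[R] A) H.x H.y) k) j).symm
      rw [e5, e6, Algebra.TensorProduct.tmul_mul_tmul, Algebra.TensorProduct.tmul_mul_tmul,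
        mul_one, one_mul]
    · intro i j
      simp only [g, Matrix.smul_apply, smul_eq_mul]
      have e1 := congrFun (congrFun (nat A R (Bialgebra.counitAlgHom R A) H.x H.y) i) j
      change Coalgebra.counit (R := R) (P A H.x H.y i j) =
        P R (Coalgebra.counit (R := R) H.x) (Coalgebra.counit (R := R) H.y) i j at e1
      have e2 : Coalgebra.counit (R := R) ((H.t ^ w : Aˣ) : A) = 1 := by
        have := H.counit_b 0 0 w
        rw [H.hb] at this
        simpa using this
      rw [counit_mul, e1, H.counit_x, H.counit_y, zero, e2, one_mul, Matrix.one_apply]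
  -- the entries of `Q` are polynomials
  have hQ : ∀ i j, Q i j ∈ H.pol := by
    intro i j
    have e1 := congrFun (congrFun (nat H.pol A H.pol.val (-⟨H.x, H.x_mem⟩) (-⟨H.y, H.y_mem⟩)) i) j
    simp only [Matrix.map_apply, map_neg] at e1
    have e2 : P A (-H.x) (-H.y) i j ∈ H.pol := by
      change _ = P A (-H.x) (-H.y) i j at e1
      rw [← e1]
      exact Subtype.property _
    simp only [Q, Matrix.smul_apply, smul_eq_mul]
    exact Subalgebra.mul_mem _ (Subalgebra.add_mem _ (Subalgebra.one_mem _)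
      (Subalgebra.smul_mem _ (Subalgebra.mul_mem _ H.x_mem H.y_mem) _)) e2
  let F : κ → (A →ₗ[R] A) := fun k => LinearMap.mulLeft R (h k0 k) ∘ₗ D (H.c 0 0 w)
  have hF : ∀ k z, F k z ∈ H.pol := by
    intro k
    have h1 : (⊤ : Submodule R A) ≤ (Subalgebra.toSubmodule H.pol).comap (F k) := by
      rw [← H.b.span_eq, Submodule.span_le]
      rintro _ ⟨⟨i, j, v⟩, rfl⟩
      simp only [SetLike.mem_coe, Submodule.mem_comap, Subalgebra.mem_toSubmodule, F,
        LinearMap.comp_apply, H.D_c he]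
      split_ifs with hv
      · subst hv
        rw [LinearMap.mulLeft_apply, H.hb]
        have : h k0 k * (H.x ^ i * H.y ^ j * ((H.t ^ v : Aˣ) : A)) =
            Q k0 k * (H.x ^ i * H.y ^ j) := by
          simp only [h, Matrix.smul_apply, smul_eq_mul]
          linear_combination (Q k0 k * (H.x ^ i * H.y ^ j)) * htt
        rw [this]
        exact Subalgebra.mul_mem _ (hQ _ _) (Subalgebra.mul_mem _ (Subalgebra.pow_mem _ H.x_mem _)
          (Subalgebra.pow_mem _ H.y_mem _))
      · rw [map_zero]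
        exact Subalgebra.zero_mem _
    intro z
    exact h1 (Submodule.mem_top (x := z))
  choose Nk hNk using fun k => H.tr_tensor (F k) (hF k) (ρ.map m)
  let N := Finset.univ.sup Nk
  refine cov_of ρ (H.a N) (H.l N) (H.l_a N) (H.B N) (H.comul_a N) g h hgh hhg hg k0 _
    (fun k α => TensorProduct.rid R M ((H.l N α).lTensor M ((F k).lTensor M (ρ.map m)))) ?_
  intro k
  rw [map_act, ← LinearMap.lTensor_comp_apply, ← tr_lTensor]
  exact (hNk k N (Finset.le_sup (Finset.mem_univ k))).symm

include H in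
/-- **The resolution property** for `G_e`, if there are twisted families. -/
theorem cov_top (he : e * e = 0) (tw : ∀ w : ℤ, Nonempty (TwistFam R ((w : R) * e)))
    [Module.Finite R M] : Cov ρ ⊤ := by
  classical
  have h1 : ∀ m : M, Cov ρ (Submodule.span R {m}) := by
    intro m
    -- `m` is a sum of its weight components
    have h2 : ∃ W : Finset ℤ, m = ∑ w ∈ W, ρ.act (H.c 0 0 w) m := by
      have h3 : ∀ z : M ⊗[R] A, ∃ W : Finset ℤ, ∀ W', W ⊆ W' →
          TensorProduct.rid R M ((Coalgebra.counit (R := R) (A := A)).lTensor M z) =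
          ∑ w ∈ W', TensorProduct.rid R M ((H.c 0 0 w).lTensor M z) := by
        intro z
        induction z using TensorProduct.induction_on with
        | zero => exact ⟨∅, fun W' _ => by simp⟩
        | add x y hx hy =>
          obtain ⟨W1, h1⟩ := hx
          obtain ⟨W2, h2⟩ := hy
          refine ⟨W1 ∪ W2, fun W' hW => ?_⟩
          simp only [map_add, Finset.sum_add_distrib]
          rw [h1 W' (Finset.union_subset_left hW), h2 W' (Finset.union_subset_right hW)]
        | tmul v c =>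
          have h4 : ∃ W : Finset ℤ, ∀ W', W ⊆ W' →
              Coalgebra.counit (R := R) c = ∑ w ∈ W', H.c 0 0 w c := by
            have : c ∈ Submodule.span R (Set.range H.b) := by
              rw [H.b.span_eq]; exact Submodule.mem_top
            refine Submodule.span_induction (p := fun c _ => ∃ W : Finset ℤ, ∀ W', W ⊆ W' →
              Coalgebra.counit (R := R) c = ∑ w ∈ W', H.c 0 0 w c) ?_ ?_ ?_ ?_ this
            · rintro _ ⟨⟨i, j, v⟩, rfl⟩
              refine ⟨{v}, fun W' hW => ?_⟩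
              simp only [c_b, H.counit_b]
              by_cases hij : i = 0 ∧ j = 0
              · rw [if_pos hij, Finset.sum_eq_single v]
                · simp [hij]
                · intro w _ hw
                  rw [if_neg]
                  rintro ⟨-, -, h⟩
                  exact hw h.symm
                · intro h
                  exact absurd (hW (Finset.mem_singleton_self v)) h
              · rw [if_neg hij, Finset.sum_eq_zero]
                intro w _
                rw [if_neg]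
                rintro ⟨h1, h2, -⟩
                exact hij ⟨h1, h2⟩
            · exact ⟨∅, fun W' _ => by simp⟩
            · rintro x y _ _ ⟨W1, h1⟩ ⟨W2, h2⟩
              refine ⟨W1 ∪ W2, fun W' hW => ?_⟩
              simp only [map_add, Finset.sum_add_distrib]
              rw [h1 W' (Finset.union_subset_left hW), h2 W' (Finset.union_subset_right hW)]
            · rintro r x _ ⟨W1, h1⟩
              exact ⟨W1, fun W' hW => by simp only [map_smul, h1 W' hW, Finset.smul_sum]⟩
          obtain ⟨W, hW⟩ := h4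
          refine ⟨W, fun W' h => ?_⟩
          simp only [LinearMap.lTensor_tmul, TensorProduct.rid_tmul]
          rw [hW W' h, Finset.sum_smul]
      obtain ⟨W, hW⟩ := h3 (ρ.map m)
      refine ⟨W, ?_⟩
      have hcu := LinearMap.congr_fun ρ.counit m
      simp only [LinearMap.coe_comp, Function.comp_apply, LinearEquiv.coe_coe, LinearMap.id_coe,
        id_eq] at hcu
      conv_lhs => rw [← hcu, hW W (Finset.Subset.refl _)]
      rfl
    obtain ⟨W, hW⟩ := h2
    have h4 : ∀ W : Finset ℤ, Cov ρ (Submodule.span R {∑ w ∈ W, ρ.act (H.c 0 0 w) m}) := by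
      intro W
      induction W using Finset.induction_on with
      | empty =>
        simp only [Finset.sum_empty, Submodule.span_zero_singleton]
        exact Cov.bot ρ
      | insert w W hw ih =>
        rw [Finset.sum_insert hw]
        refine ((H.cov_weight ρ he w (tw w).some m).sup ih).mono ?_
        rw [Submodule.span_le, Set.singleton_subset_iff, SetLike.mem_coe]
        exact Submodule.add_mem_sup (Submodule.mem_span_singleton_self _)
          (Submodule.mem_span_singleton_self _)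
    rw [hW]
    exact h4 W
  have hfg : (⊤ : Submodule R M).FG := Module.Finite.fg_top
  exact Submodule.fg_induction (motive := fun N _ => Cov ρ N) (fun x => h1 x)
    (fun N1 N2 _ _ h1 h2 => h1.sup h2) ⊤ hfg

end Heis

end

end Pool.Agent.KS6_82.RP
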